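import Pool.Graph.R_pool_sql_team_seeded_620a6dc7.H989.Slopes

/-! # Parts: combining sets for different groups of slopes (helper file of helper84) -/

set_option autoImplicit false

namespace Pool.Agent.H84.AK

open Finset
open Pool.Agent.H989.Slopes

/-- the linear form of a slope -/
def lf (s : Option ℚ) (z : ℚ × ℚ) : ℚ :=
  match s with
  | none => z.2
  | some r => z.1 + r * z.2

/-- the projection of a set of integer points, with the slope `∞` written `none` -/
def pj (s : Option ℚ) (A : Finset (ℤ × ℤ)) : Finset ℚ :=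
  A.image (fun p : ℤ × ℤ => lf s ((p.1 : ℚ), (p.2 : ℚ)))

theorem pj_none (A : Finset (ℤ × ℤ)) : pj none A = projInf A := rfl

theorem pj_some (r : ℚ) (A : Finset (ℤ × ℤ)) : pj (some r) A = proj r A := rfl

/-- `Cov Q T`: the slopes of `T` are handled with `Q` parts. -/
def Cov (Q : ℕ) (T : Set (Option ℚ)) : Prop :=
  ∃ (A : Finset (ℤ × ℤ)) (n : ℕ), 1 ≤ n ∧ (pj (some (-1)) A).card = 2 ^ (Q * n) ∧
    (∀ s, (pj s A).card ≤ 2 ^ (Q * n)) ∧
    ∀ s ∈ T, (pj s A).card ^ 180 * 2 ^ n ≤ 2 ^ (180 * (Q * n))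

theorem exists_prod_family' {ι : Type} [DecidableEq ι] (s : Finset ι) (F : ι → Finset (ℤ × ℤ)) :
    ∃ C : Finset (ℤ × ℤ), (pj (some (-1)) C).card = ∏ i ∈ s, (pj (some (-1)) (F i)).card ∧
      ∀ t, (pj t C).card ≤ ∏ i ∈ s, (pj t (F i)).card := by
  obtain ⟨C, h1, h2, h3⟩ := exists_prod_family s F
  refine ⟨C, h1, fun t => ?_⟩
  cases t with
  | none => exact h3
  | some r => exact h2 r

theorem exists_pow' (A : Finset (ℤ × ℤ)) (t : ℕ) :
    ∃ C : Finset (ℤ × ℤ), (pj (some (-1)) C).card = (pj (some (-1)) A).card ^ t ∧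
      ∀ s, (pj s C).card ≤ (pj s A).card ^ t := by
  obtain ⟨C, h1, h2⟩ := exists_prod_family' (range t) (fun _ => A)
  simp only [prod_const, card_range] at h1 h2
  exact ⟨C, h1, h2⟩

theorem exists_product' (A B : Finset (ℤ × ℤ)) :
    ∃ C : Finset (ℤ × ℤ),
      (pj (some (-1)) C).card = (pj (some (-1)) A).card * (pj (some (-1)) B).card ∧
      ∀ t, (pj t C).card ≤ (pj t A).card * (pj t B).card := by
  obtain ⟨C, h1, h2, h3⟩ := exists_product A B
  refine ⟨C, h1, fun t => ?_⟩
  cases t with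
  | none => exact h3
  | some r => exact h2 r

theorem Cov.union {Q₁ Q₂ : ℕ} {T₁ T₂ : Set (Option ℚ)} (h₁ : Cov Q₁ T₁) (h₂ : Cov Q₂ T₂) :
    Cov (Q₁ + Q₂) (T₁ ∪ T₂) := by
  obtain ⟨A, n, hn, a1, a2, a3⟩ := h₁
  obtain ⟨B, m, hm, b1, b2, b3⟩ := h₂
  obtain ⟨A', c1, c2⟩ := exists_pow' A m
  obtain ⟨B', d1, d2⟩ := exists_pow' B n
  obtain ⟨C, e1, e2⟩ := exists_product' A' B'
  have hA : ∀ s, (pj s A').card ≤ 2 ^ (Q₁ * (n * m)) := fun s =>
    (c2 s).trans ((Nat.pow_le_pow_left (a2 s) m).trans (by rw [← pow_mul, mul_assoc]))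
  have hB : ∀ s, (pj s B').card ≤ 2 ^ (Q₂ * (n * m)) := fun s =>
    (d2 s).trans ((Nat.pow_le_pow_left (b2 s) n).trans (by rw [← pow_mul, mul_assoc, mul_comm m n]))
  refine ⟨C, n * m, Nat.mul_pos hn hm, ?_, fun s => ?_, ?_⟩
  · rw [e1, c1, d1, a1, b1, ← pow_mul, ← pow_mul, ← pow_add]
    congr 1
    ring
  · refine (e2 s).trans ((Nat.mul_le_mul (hA s) (hB s)).trans ?_)
    rw [← pow_add, ← add_mul]
  · rintro s (hs | hs)
    · have h1 : (pj s A').card ^ 180 * 2 ^ (n * m) ≤ 2 ^ (180 * (Q₁ * (n * m))) := by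
        calc (pj s A').card ^ 180 * 2 ^ (n * m) ≤ ((pj s A).card ^ m) ^ 180 * (2 ^ n) ^ m := by
              rw [← pow_mul 2 n m]
              exact Nat.mul_le_mul_right _ (Nat.pow_le_pow_left (c2 s) _)
          _ = ((pj s A).card ^ 180 * 2 ^ n) ^ m := by
              rw [mul_pow, ← pow_mul, ← pow_mul, ← pow_mul, mul_comm m]
          _ ≤ (2 ^ (180 * (Q₁ * n))) ^ m := Nat.pow_le_pow_left (a3 s hs) _
          _ = _ := by rw [← pow_mul]; congr 1; ring
      calc (pj s C).card ^ 180 * 2 ^ (n * m)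
          ≤ ((pj s A').card * (pj s B').card) ^ 180 * 2 ^ (n * m) :=
            Nat.mul_le_mul_right _ (Nat.pow_le_pow_left (e2 s) _)
        _ = ((pj s A').card ^ 180 * 2 ^ (n * m)) * (pj s B').card ^ 180 := by rw [mul_pow]; ring
        _ ≤ 2 ^ (180 * (Q₁ * (n * m))) * (2 ^ (Q₂ * (n * m))) ^ 180 :=
            Nat.mul_le_mul h1 (Nat.pow_le_pow_left (hB s) _)
        _ = _ := by rw [← pow_mul, ← pow_add]; congr 1; ring
    · have h1 : (pj s B').card ^ 180 * 2 ^ (n * m) ≤ 2 ^ (180 * (Q₂ * (n * m))) := by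
        calc (pj s B').card ^ 180 * 2 ^ (n * m) ≤ ((pj s B).card ^ n) ^ 180 * (2 ^ m) ^ n := by
              rw [← pow_mul 2 m n, mul_comm m n]
              exact Nat.mul_le_mul_right _ (Nat.pow_le_pow_left (d2 s) _)
          _ = ((pj s B).card ^ 180 * 2 ^ m) ^ n := by
              rw [mul_pow, ← pow_mul, ← pow_mul, ← pow_mul, mul_comm n]
          _ ≤ (2 ^ (180 * (Q₂ * m))) ^ n := Nat.pow_le_pow_left (b3 s hs) _
          _ = _ := by rw [← pow_mul]; congr 1; ring
      calc (pj s C).card ^ 180 * 2 ^ (n * m)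
          ≤ ((pj s A').card * (pj s B').card) ^ 180 * 2 ^ (n * m) :=
            Nat.mul_le_mul_right _ (Nat.pow_le_pow_left (e2 s) _)
        _ = ((pj s B').card ^ 180 * 2 ^ (n * m)) * (pj s A').card ^ 180 := by rw [mul_pow]; ring
        _ ≤ 2 ^ (180 * (Q₂ * (n * m))) * (2 ^ (Q₁ * (n * m))) ^ 180 :=
            Nat.mul_le_mul h1 (Nat.pow_le_pow_left (hA s) _)
        _ = _ := by rw [← pow_mul, ← pow_add]; congr 1; ring

theorem Cov.mono {Q : ℕ} {T T' : Set (Option ℚ)} (h : Cov Q T) (hT : T' ⊆ T) : Cov Q T' := by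
  obtain ⟨A, n, hn, a1, a2, a3⟩ := h
  exact ⟨A, n, hn, a1, a2, fun s hs => a3 s (hT hs)⟩

/-- one slope -/
theorem Cov.single (s : Option ℚ) (hs : s ≠ some (-1)) : Cov 1 {s} := by
  -- an integer point on the line killed by the form of `s`
  obtain ⟨z, hz1, hz2⟩ : ∃ z : ℤ × ℤ, lf s ((z.1 : ℚ), (z.2 : ℚ)) = 0 ∧ z.1 ≠ z.2 := by
    cases s with
    | none => exact ⟨(1, 0), by simp [lf], by simp⟩
    | some r =>
      refine ⟨(-r.num, r.den), ?_, ?_⟩
      · simp only [lf]
        push_cast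
        have := Rat.mul_den_eq_num r
        linarith
      · intro h
        simp only at h
        apply hs
        congr 1
        have h1 := Rat.mul_den_eq_num r
        have h2 : (r.den : ℚ) ≠ 0 := by exact_mod_cast r.den_nz
        have h3 : -(r.num : ℚ) = r.den := by exact_mod_cast h
        have : (r + 1) * r.den = 0 := by rw [add_mul, h1, one_mul, ← h3]; ring
        rcases mul_eq_zero.mp this with h4 | h4
        · linarith
        · exact absurd h4 h2
  refine ⟨(range 2).image (fun i : ℕ => ((i : ℤ) * z.1, (i : ℤ) * z.2)), 1, le_refl _, ?_, ?_, ?_⟩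
  · unfold pj
    rw [image_image, card_image_of_injOn]
    · simp
    · intro i _ j _ h
      simp only [Function.comp, lf] at h
      push_cast at h
      have h1 : ((i : ℚ) - j) * (z.1 - z.2) = 0 := by linear_combination h
      rcases mul_eq_zero.mp h1 with h2 | h2
      · have : (i : ℚ) = j := by linarith
        exact_mod_cast this
      · exact absurd (by exact_mod_cast (sub_eq_zero.mp h2)) hz2
  · intro t
    refine card_image_le.trans (card_image_le.trans ?_)
    simp
  · intro t ht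
    rw [Set.mem_singleton_iff] at ht
    subst ht
    have : pj t ((range 2).image (fun i : ℕ => ((i : ℤ) * z.1, (i : ℤ) * z.2))) ⊆ {0} := by
      intro x hx
      unfold pj at hx
      rw [image_image, mem_image] at hx
      obtain ⟨i, _, rfl⟩ := hx
      rw [mem_singleton]
      cases t with
      | none =>
        simp only [lf, Function.comp] at hz1 ⊢
        push_cast
        rw [hz1, mul_zero]
      | some r =>
        simp only [lf, Function.comp] at hz1 ⊢
        push_cast
        linear_combination (i : ℚ) * hz1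
    have h1 : (pj t ((range 2).image (fun i : ℕ => ((i : ℤ) * z.1, (i : ℤ) * z.2)))).card ≤ 1 := by
      simpa using card_le_card this
    calc _ ≤ 1 ^ 180 * 2 ^ 1 := Nat.mul_le_mul_right _ (Nat.pow_le_pow_left h1 _)
      _ ≤ _ := by norm_num

/-- finitely many slopes -/
theorem Cov.finite (B : Finset (Option ℚ)) (hB : some (-1) ∉ B) (hne : B.Nonempty) :
    Cov B.card (B : Set (Option ℚ)) := by
  induction hne using Finset.Nonempty.cons_induction with
  | singleton a =>
    rw [card_singleton, coe_singleton]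
    exact Cov.single a (fun h => hB (by rw [h]; exact mem_singleton_self _))
  | cons a s ha hs ih =>
    rw [card_cons, coe_cons, add_comm]
    rw [mem_cons, not_or] at hB
    have h1 := (Cov.single a (fun h => hB.1 h.symm)).union (ih hB.2)
    rwa [Set.singleton_union] at h1

end Pool.Agent.H84.AK
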