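import Mathlib

/-! # Growth of the solutions of `e (a + 1) + e (a - 1) = θ e a` (helper file of helper84) -/

set_option autoImplicit false

namespace Pool.Agent.H84.AK

open Finset

/-- the square of a `p`-adic absolute value -/
noncomputable def padSq (p : ℕ) [hp : Fact p.Prime] : AbsoluteValue ℚ ℝ where
  toFun x := ((padicNorm p x : ℚ) : ℝ) ^ 2
  map_mul' x y := by
    rw [padicNorm.mul]
    push_cast
    ring
  nonneg' x := by positivity
  eq_zero' x := by
    constructor
    · intro h
      have h1 : ((padicNorm p x : ℚ) : ℝ) = 0 := by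
        rcases pow_eq_zero_iff (n := 2) (by norm_num) |>.mp h with h2
        exact h2
      exact padicNorm.zero_of_padicNorm_eq_zero (by exact_mod_cast h1)
    · rintro rfl
      simp
  add_le' x y := by
    have h1 : padicNorm p (x + y) ≤ max (padicNorm p x) (padicNorm p y) := padicNorm.nonarchimedean
    have h0 := padicNorm.nonneg (p := p) (x + y)
    have hx := padicNorm.nonneg (p := p) x
    have hy := padicNorm.nonneg (p := p) y
    have h2 : padicNorm p (x + y) ^ 2 ≤ padicNorm p x ^ 2 + padicNorm p y ^ 2 := by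
      rcases le_max_iff.mp h1 with h | h
      · nlinarith
      · nlinarith
    exact_mod_cast h2

/-- a rational number different from `0, ±1, ±2` is large for some absolute value -/
theorem exists_abv (θ : ℚ) (h0 : θ ≠ 0) (h1 : θ ≠ 1) (h2 : θ ≠ -1) (h3 : θ ≠ 2) (h4 : θ ≠ -2) :
    ∃ v : AbsoluteValue ℚ ℝ, 3 ≤ v θ := by
  by_cases hd : θ.den = 1
  · refine ⟨Rat.AbsoluteValue.real, ?_⟩
    have he : (θ.num : ℚ) = θ := by
      rw [Rat.coe_int_num_of_den_eq_one hd]
    have hn : 3 ≤ |θ.num| := by
      by_contra hcon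
      have h5 : |θ.num| ≤ 2 := by omega
      rw [abs_le] at h5
      obtain ⟨h6, h7⟩ := h5
      have : θ.num = -2 ∨ θ.num = -1 ∨ θ.num = 0 ∨ θ.num = 1 ∨ θ.num = 2 := by omega
      rcases this with h | h | h | h | h <;> rw [h] at he <;> norm_num at he
      · exact h4 he.symm
      · exact h2 he.symm
      · exact h0 he.symm
      · exact h1 he.symm
      · exact h3 he.symm
    have h8 : (3 : ℚ) ≤ |θ| := by
      rw [← he]
      exact_mod_cast hn
    have h9 : (3 : ℝ) ≤ ((|θ| : ℚ) : ℝ) := by exact_mod_cast h8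
    simpa using h9
  · obtain ⟨p, hp, hpd⟩ := Nat.exists_prime_and_dvd hd
    have := Fact.mk hp
    refine ⟨padSq p, ?_⟩
    have h5 : (2 : ℚ) ≤ padicNorm p θ := by
      have hnum : ¬ (p : ℤ) ∣ θ.num := by
        intro h
        have hc := θ.reduced
        have h6 : p ∣ θ.num.natAbs := Int.natCast_dvd.mp h
        have := Nat.dvd_gcd h6 hpd
        rw [hc] at this
        exact hp.one_lt.ne' (Nat.dvd_one.mp this)
      have h7 : padicNorm p (θ.num : ℚ) = 1 := by
        have := padicNorm.int_eq_one_iff (p := p) θ.num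
        exact this.mpr hnum
      have h8 : padicNorm p (θ.den : ℚ) ≤ (p : ℚ)⁻¹ := by
        have h9 : ((p ^ 1 : ℕ) : ℤ) ∣ (θ.den : ℤ) := by
          rw [pow_one]
          exact_mod_cast hpd
        have := (padicNorm.dvd_iff_norm_le (p := p) (n := 1) (z := (θ.den : ℤ))).mp h9
        simpa using this
      have h10 : padicNorm p θ * padicNorm p (θ.den : ℚ) = 1 := by
        rw [← padicNorm.mul, Rat.mul_den_eq_num, h7]
      have hp2 : (2 : ℚ) ≤ p := by exact_mod_cast hp.two_le
      have h11 : padicNorm p (θ.den : ℚ) ≤ 1 / 2 := by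
        refine h8.trans ?_
        rw [inv_eq_one_div]
        exact one_div_le_one_div_of_le (by norm_num) hp2
      have h12 := padicNorm.nonneg (p := p) θ
      nlinarith
    have h6 : (2 : ℝ) ≤ ((padicNorm p θ : ℚ) : ℝ) := by exact_mod_cast h5
    show (3 : ℝ) ≤ ((padicNorm p θ : ℚ) : ℝ) ^ 2
    nlinarith

/-- taking powers of the map three times makes the trace large -/
theorem exists_abv' (θ : ℚ) (h0 : θ ≠ 0) (h1 : θ ≠ 1) (h2 : θ ≠ -1) (h3 : θ ≠ 2) (h4 : θ ≠ -2) :
    ∃ v : AbsoluteValue ℚ ℝ, 18 ≤ v ((θ ^ 2 - 2) ^ 2 - 2) := by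
  obtain ⟨v, hv⟩ := exists_abv θ h0 h1 h2 h3 h4
  refine ⟨v, ?_⟩
  have hv2 : v 2 ≤ 2 := by
    have := v.add_le 1 1
    rw [v.map_one] at this
    norm_num at this
    exact this
  have key : ∀ x : ℚ, v x ^ 2 ≤ v (x ^ 2 - 2) + 2 := by
    intro x
    have h5 := v.add_le (x ^ 2 - 2) 2
    rw [sub_add_cancel, map_pow] at h5
    linarith
  have h5 := key θ
  have h6 := key (θ ^ 2 - 2)
  have h7 : 7 ≤ v (θ ^ 2 - 2) := by nlinarith
  have h8 : 7 * 7 ≤ v (θ ^ 2 - 2) ^ 2 := by
    rw [sq]
    exact mul_le_mul h7 h7 (by norm_num) (by linarith)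
  linarith

section

variable {v : AbsoluteValue ℚ ℝ} {θ : ℚ} {e : ℤ → ℚ}

/-- the sequence grows to the right of `a` -/
def RG (v : AbsoluteValue ℚ ℝ) (e : ℤ → ℚ) (a : ℤ) : Prop := 9 * v (e a) ≤ v (e (a + 1))

/-- the sequence grows to the left of `a` -/
def LG (v : AbsoluteValue ℚ ℝ) (e : ℤ → ℚ) (a : ℤ) : Prop := 9 * v (e a) ≤ v (e (a - 1))

theorem conv_ineq (hv : 18 ≤ v θ) (he : ∀ a, e (a + 1) + e (a - 1) = θ * e a) (a : ℤ) :
    18 * v (e a) ≤ v (e (a + 1)) + v (e (a - 1)) := by
  have h1 := v.add_le (e (a + 1)) (e (a - 1))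
  rw [he a, v.map_mul] at h1
  have h2 := v.nonneg (e a)
  nlinarith

theorem RG_or_LG (hv : 18 ≤ v θ) (he : ∀ a, e (a + 1) + e (a - 1) = θ * e a) (a : ℤ) :
    RG v e a ∨ LG v e a := by
  have h := conv_ineq hv he a
  unfold RG LG
  by_contra hcon
  push Not at hcon
  linarith [hcon.1, hcon.2]

theorem RG_succ (hv : 18 ≤ v θ) (he : ∀ a, e (a + 1) + e (a - 1) = θ * e a) {a : ℤ}
    (h : RG v e a) : RG v e (a + 1) := by
  have h1 := conv_ineq hv he (a + 1)
  unfold RG at *
  rw [add_sub_cancel_right] at h1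
  have h2 := v.nonneg (e (a + 1))
  have h3 := v.nonneg (e a)
  linarith

theorem LG_pred (hv : 18 ≤ v θ) (he : ∀ a, e (a + 1) + e (a - 1) = θ * e a) {a : ℤ}
    (h : LG v e a) : LG v e (a - 1) := by
  have h1 := conv_ineq hv he (a - 1)
  unfold LG at *
  rw [sub_add_cancel] at h1
  have h2 := v.nonneg (e (a - 1))
  have h3 := v.nonneg (e a)
  linarith

theorem RG_lt (hv : 18 ≤ v θ) (he : ∀ a, e (a + 1) + e (a - 1) = θ * e a) {a : ℤ}
    (h : RG v e a) (n : ℕ) : RG v e (a + n) ∧ 9 * v (e a) ≤ v (e (a + n + 1)) := by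
  induction n with
  | zero => simpa using ⟨h, h⟩
  | succ n ih =>
    obtain ⟨h1, h2⟩ := ih
    have h3 := RG_succ hv he h1
    push_cast
    rw [← add_assoc]
    refine ⟨h3, ?_⟩
    unfold RG at h3
    have h4 := v.nonneg (e (a + n + 1))
    linarith

theorem LG_lt (hv : 18 ≤ v θ) (he : ∀ a, e (a + 1) + e (a - 1) = θ * e a) {a : ℤ}
    (h : LG v e a) (n : ℕ) : LG v e (a - n) ∧ 9 * v (e a) ≤ v (e (a - n - 1)) := by
  induction n with
  | zero => simpa using ⟨h, h⟩
  | succ n ih =>
    obtain ⟨h1, h2⟩ := ih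
    have h3 := LG_pred hv he h1
    push_cast
    rw [← sub_sub]
    refine ⟨h3, ?_⟩
    unfold LG at h3
    have h4 := v.nonneg (e (a - n - 1))
    linarith

theorem RG_gt (hv : 18 ≤ v θ) (he : ∀ a, e (a + 1) + e (a - 1) = θ * e a) {a b : ℤ}
    (h : RG v e a) (hab : a < b) : 9 * v (e a) ≤ v (e b) ∧ RG v e b := by
  obtain ⟨n, hn⟩ := Int.eq_ofNat_of_zero_le (show 0 ≤ b - a - 1 by omega)
  obtain ⟨h1, h2⟩ := RG_lt hv he h n
  have hb : a + n + 1 = b := by omega
  rw [hb] at h2
  have h3 := RG_succ hv he h1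
  rw [hb] at h3
  exact ⟨h2, h3⟩

theorem LG_gt (hv : 18 ≤ v θ) (he : ∀ a, e (a + 1) + e (a - 1) = θ * e a) {a b : ℤ}
    (h : LG v e a) (hab : b < a) : 9 * v (e a) ≤ v (e b) ∧ LG v e b := by
  obtain ⟨n, hn⟩ := Int.eq_ofNat_of_zero_le (show 0 ≤ a - b - 1 by omega)
  obtain ⟨h1, h2⟩ := LG_lt hv he h n
  have hb : a - n - 1 = b := by omega
  rw [hb] at h2
  have h3 := LG_pred hv he h1
  rw [hb] at h3
  exact ⟨h2, h3⟩

/-- two indices whose terms are not separated by a factor `3` -/
def Conf (v : AbsoluteValue ℚ ℝ) (e : ℤ → ℚ) (a b : ℤ) : Prop :=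
  a ≠ b ∧ v (e a) < 3 * v (e b) ∧ v (e b) < 3 * v (e a)

theorem Conf.symm {a b : ℤ} (h : Conf v e a b) : Conf v e b a := ⟨h.1.symm, h.2.2, h.2.1⟩

/-- every index is in conflict with at most one other index -/
theorem conf_unique (hv : 18 ≤ v θ) (he : ∀ a, e (a + 1) + e (a - 1) = θ * e a) {a b c : ℤ}
    (h1 : Conf v e a b) (h2 : Conf v e a c) : b = c := by
  -- two indices which are both in conflict with `a` have comparable terms
  have hb := v.nonneg (e b)
  have hc := v.nonneg (e c)
  have ha : 0 < v (e a) := by linarith [h1.2.2]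
  have hb' : 0 < v (e b) := by linarith [h1.2.1]
  have hc' : 0 < v (e c) := by linarith [h2.2.1]
  have hbc : v (e b) < 9 * v (e c) := by linarith [h1.2.2, h2.2.1]
  have hcb : v (e c) < 9 * v (e b) := by linarith [h2.2.2, h1.2.1]
  -- an index to the left of an index in conflict
  have side : ∀ {x y : ℤ}, Conf v e x y → x < y → ¬ RG v e x ∧ ¬ LG v e y := by
    intro x y h hxy
    constructor
    · intro hr
      have := (RG_gt hv he hr hxy).1
      have := v.nonneg (e x)
      linarith [h.2.2]
    · intro hl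
      have := (LG_gt hv he hl hxy).1
      have := v.nonneg (e y)
      linarith [h.2.1]
  by_contra hne
  wlog hlt : b < c generalizing b c
  · exact this h2 h1 hc hb hc' hb' hcb hbc (fun h => hne h.symm) (by omega)
  rcases lt_trichotomy a b with hab | hab | hab
  · -- a < b < c
    have h3 := side h1 hab
    have h4 := (RG_or_LG hv he b).resolve_right h3.2
    have := (RG_gt hv he h4 hlt).1
    linarith
  · exact h1.1 hab
  · rcases lt_trichotomy a c with hac | hac | hac
    · -- b < a < c
      have h3 := side h1.symm hab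
      have h4 := side h2 hac
      rcases RG_or_LG hv he a with h5 | h5
      · exact h4.1 h5
      · exact h3.2 h5
    · exact h2.1 hac
    · -- b < c < a
      have h3 := side h2.symm hac
      have h4 := (RG_or_LG hv he c).resolve_left h3.1
      have := (LG_gt hv he h4 hlt).1
      linarith

/-- at most one term is zero -/
theorem zero_unique (hv : 18 ≤ v θ) (he : ∀ a, e (a + 1) + e (a - 1) = θ * e a)
    (hne : ∃ a, e a ≠ 0) {a b : ℤ} (ha : e a = 0) (hb : e b = 0) : a = b := by
  by_contra hab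
  wlog hlt : a < b generalizing a b
  · exact this hb ha (fun h => hab h.symm) (by omega)
  have hra : RG v e a := by
    unfold RG
    rw [ha, v.map_zero, mul_zero]
    exact v.nonneg _
  have hla : LG v e a := by
    unfold LG
    rw [ha, v.map_zero, mul_zero]
    exact v.nonneg _
  have hlb : LG v e b := by
    unfold LG
    rw [hb, v.map_zero, mul_zero]
    exact v.nonneg _
  -- all terms between `a` and `b` are zero
  have h1 : ∀ c, a < c → e c = 0 := by
    intro c hac
    by_contra hc
    have hcp : 0 < v (e c) := v.pos hc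
    have hrc : RG v e c := (RG_gt hv he hra hac).2
    -- terms to the right of `c` are non zero
    have h2 : c < b → False := by
      intro hcb
      have := (RG_gt hv he hrc hcb).1
      rw [hb, v.map_zero] at this
      linarith
    rcases lt_trichotomy c b with h | h | h
    · exact h2 h
    · rw [h] at hc; exact hc hb
    · -- b < c : e (b + 1) = - e (b - 1)
      have h3 : v (e (b + 1)) ≤ v (e (b - 1)) := by
        have := he b
        rw [hb, mul_zero] at this
        have h4 : e (b + 1) = - e (b - 1) := by linarith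
        rw [h4, v.map_neg]
      have h4 : e (b - 1) = 0 := by
        by_contra h5
        have h6 : 0 < v (e (b - 1)) := v.pos h5
        have h7 : a < b - 1 := by
          rcases lt_or_eq_of_le (show a ≤ b - 1 by omega) with h | h
          · exact h
          · rw [← h] at h5; exact absurd ha h5
        have h8 : RG v e (b - 1) := (RG_gt hv he hra h7).2
        unfold RG at h8
        rw [sub_add_cancel, hb, v.map_zero] at h8
        linarith
      have h5 : v (e (b + 1)) ≤ 0 := by rw [h4, v.map_zero] at h3; exact h3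
      -- hence everything to the right vanishes
      have h6 : ∀ n : ℕ, e (b + n) = 0 ∧ e (b + n + 1) = 0 := by
        intro n
        induction n with
        | zero =>
          refine ⟨by simpa using hb, ?_⟩
          have := v.nonneg (e (b + 1))
          have h9 : v (e (b + 1)) = 0 := le_antisymm h5 this
          simpa using (v.eq_zero).mp h9
        | succ n ih =>
          have := he (b + n + 1)
          rw [add_sub_cancel_right, ih.1, ih.2, mul_zero, add_zero] at this
          push_cast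
          rw [← add_assoc]
          exact ⟨ih.2, this⟩
      obtain ⟨n, hn⟩ := Int.eq_ofNat_of_zero_le (show 0 ≤ c - b by omega)
      have := (h6 n).1
      rw [show b + (n : ℤ) = c by omega] at this
      exact hc this
  -- everything vanishes
  have h2 : ∀ n : ℕ, e (a + 1 - n) = 0 ∧ e (a + 1 - n + 1) = 0 := by
    intro n
    induction n with
    | zero => exact ⟨by simpa using h1 (a + 1) (by omega), by simpa using h1 (a + 1 + 1) (by omega)⟩
    | succ n ih =>
      have h3 := he (a + 1 - n)
      rw [ih.1, ih.2, mul_zero, zero_add] at h3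
      push_cast
      rw [← sub_sub, sub_add_cancel]
      exact ⟨h3, ih.1⟩
  obtain ⟨c, hc⟩ := hne
  rcases lt_or_ge a c with h | h
  · exact hc (h1 c h)
  · obtain ⟨n, hn⟩ := Int.eq_ofNat_of_zero_le (show 0 ≤ a + 1 - c by omega)
    have := (h2 n).1
    rw [show a + 1 - (n : ℤ) = c by omega] at this
    exact hc this

end

/-- in a finite set of separated terms, the others are together smaller than half of the largest -/
theorem sum_sep {v : AbsoluteValue ℚ ℝ} {e : ℤ → ℚ} (X : Finset ℤ)
    (hX : ∀ a ∈ X, ∀ b ∈ X, ¬ Conf v e a b) (m : ℤ) (hm : m ∉ X)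
    (hX' : ∀ a ∈ X, 3 * v (e a) ≤ v (e m)) : ∑ a ∈ X, v (e a) ≤ v (e m) / 2 := by
  induction X using Finset.strongInduction generalizing m with
  | H X ih =>
    rcases X.eq_empty_or_nonempty with h0 | hne
    · subst h0
      simp only [sum_empty]
      have := v.nonneg (e m)
      positivity
    obtain ⟨c, hc, hmax⟩ := exists_max_image X (fun a => v (e a)) hne
    have h1 := ih (X.erase c) (erase_ssubset hc) (fun a ha b hb => hX a (mem_of_mem_erase ha) b
      (mem_of_mem_erase hb)) c (notMem_erase c X) (by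
        intro a ha
        have ha' := mem_of_mem_erase ha
        have hac := ne_of_mem_erase ha
        by_contra hcon
        push Not at hcon
        have h2 := hmax a ha'
        have h3 := v.nonneg (e a)
        have h4 := v.nonneg (e c)
        apply hX a ha' c hc
        refine ⟨hac, ?_, hcon⟩
        have : 0 < v (e c) := by
          by_contra h5
          have h6 : v (e c) = 0 := le_antisymm (by linarith) h4
          rw [h6] at h2 hcon
          linarith
        linarith)
    have h2 := hX' c hc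
    rw [← add_sum_erase X (fun a => v (e a)) hc]
    linarith

/-- subset sums of separated non-zero terms are different -/
theorem sums_inj {v : AbsoluteValue ℚ ℝ} {e : ℤ → ℚ} (X : Finset ℤ)
    (hX : ∀ a ∈ X, ∀ b ∈ X, ¬ Conf v e a b) (h0 : ∀ a ∈ X, e a ≠ 0) :
    Set.InjOn (fun Y : Finset ℤ => ∑ a ∈ Y, e a) (X.powerset : Set (Finset ℤ)) := by
  intro Y hY Z hZ h
  rw [coe_powerset, Set.mem_preimage, Set.mem_powerset_iff, coe_subset] at hY hZ
  simp only at h
  by_contra hne
  set D : Finset ℤ := symmDiff Y Z with hD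
  have hDX : D ⊆ X := by
    intro a ha
    rw [hD, mem_symmDiff] at ha
    rcases ha with ha | ha
    · exact hY ha.1
    · exact hZ ha.1
  have hDne : D.Nonempty := by
    rw [nonempty_iff_ne_empty]
    intro h1
    exact hne (symmDiff_eq_bot.mp h1)
  obtain ⟨c, hc, hmax⟩ := exists_max_image D (fun a => v (e a)) hDne
  -- the signed sum
  have h1 : ∑ a ∈ Y \ Z, e a = ∑ a ∈ Z \ Y, e a := by
    have e1 := sum_sdiff (f := e) (inter_subset_left (s₁ := Y) (s₂ := Z))
    have e2 := sum_sdiff (f := e) (inter_subset_left (s₁ := Z) (s₂ := Y))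
    rw [sdiff_inter_self_left] at e1 e2
    rw [inter_comm Z Y] at e2
    linarith
  obtain ⟨σ, hσ, hsum⟩ : ∃ σ : ℤ → ℚ, (∀ a, σ a = 1 ∨ σ a = -1) ∧ ∑ a ∈ D, σ a * e a = 0 := by
    refine ⟨fun a => if a ∈ Y then 1 else -1, fun a => by by_cases h : a ∈ Y <;> simp [h], ?_⟩
    have hdisj : Disjoint (Y \ Z) (Z \ Y) := disjoint_sdiff_sdiff
    have : D = Y \ Z ∪ Z \ Y := rfl
    rw [this, sum_union hdisj]
    have e1 : ∑ a ∈ Y \ Z, (if a ∈ Y then (1 : ℚ) else -1) * e a = ∑ a ∈ Y \ Z, e a :=
      sum_congr rfl (fun a ha => by rw [if_pos (mem_sdiff.mp ha).1, one_mul])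
    have e2 : ∑ a ∈ Z \ Y, (if a ∈ Y then (1 : ℚ) else -1) * e a = - ∑ a ∈ Z \ Y, e a := by
      rw [← sum_neg_distrib]
      exact sum_congr rfl (fun a ha => by rw [if_neg (mem_sdiff.mp ha).2, neg_one_mul])
    rw [e1, e2, h1]
    ring
  have h2 : v (e c) ≤ ∑ a ∈ D.erase c, v (e a) := by
    rw [← add_sum_erase D _ hc] at hsum
    have h3 : σ c * e c = - ∑ a ∈ D.erase c, σ a * e a := by linarith
    have h4 : v (σ c * e c) = v (e c) := by
      rcases hσ c with h | h <;> rw [h] <;> simp
    have h5 : v (∑ a ∈ D.erase c, σ a * e a) ≤ ∑ a ∈ D.erase c, v (σ a * e a) := v.sum_le _ _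
    have h6 : ∑ a ∈ D.erase c, v (σ a * e a) = ∑ a ∈ D.erase c, v (e a) :=
      sum_congr rfl (fun a _ => by rcases hσ a with h | h <;> rw [h] <;> simp)
    rw [← h4, h3, v.map_neg, ← h6]
    exact h5
  have hcp : 0 < v (e c) := v.pos (h0 c (hDX hc))
  have h3 := sum_sep (D.erase c)
    (fun a ha b hb => hX a (hDX (mem_of_mem_erase ha)) b (hDX (mem_of_mem_erase hb))) c
    (notMem_erase c D) (by
      intro a ha
      by_contra hcon
      push Not at hcon
      have h4 := hmax a (mem_of_mem_erase ha)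
      refine hX a (hDX (mem_of_mem_erase ha)) c (hDX hc) ⟨ne_of_mem_erase ha, ?_, hcon⟩
      linarith)
  linarith

end Pool.Agent.H84.AK
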