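import Pool.Agent.H84.AK.Basic
import Pool.Agent.H84.AK.Growth

/-! # The sets for the slopes of a sequence (helper file of helper84) -/

set_option autoImplicit false

namespace Pool.Agent.H84.AK

open Finset
open Pool.Agent.H989.Slopes
open scoped Classical

/-- the subset sums -/
noncomputable def ss (f : ℤ → ℚ) (X : Finset ℤ) : Finset ℚ :=
  X.powerset.image (fun Y => ∑ a ∈ Y, f a)

theorem ss_card_le (f : ℤ → ℚ) (X : Finset ℤ) : (ss f X).card ≤ 2 ^ X.card := by
  unfold ss
  exact card_image_le.trans (by rw [card_powerset])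

theorem ss_union_le (f : ℤ → ℚ) {X Z : Finset ℤ} (h : Disjoint X Z) :
    (ss f (X ∪ Z)).card ≤ (ss f X).card * (ss f Z).card := by
  have h1 : ss f (X ∪ Z) ⊆ ((ss f X) ×ˢ (ss f Z)).image (fun q => q.1 + q.2) := by
    intro x hx
    unfold ss at hx
    rw [mem_image] at hx
    obtain ⟨Y, hY, rfl⟩ := hx
    rw [mem_powerset] at hY
    rw [mem_image]
    refine ⟨(∑ a ∈ Y ∩ X, f a, ∑ a ∈ Y ∩ Z, f a), ?_, ?_⟩
    · rw [mem_product]
      exact ⟨mem_image_of_mem _ (mem_powerset.mpr inter_subset_right),
        mem_image_of_mem _ (mem_powerset.mpr inter_subset_right)⟩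
    · simp only
      rw [← sum_union (h.mono inter_subset_right inter_subset_right), ← inter_union_distrib_left,
        inter_eq_left.mpr hY]
  exact (card_le_card h1).trans (card_image_le.trans (by rw [card_product]))

theorem ss_pair_le (f : ℤ → ℚ) {a b : ℤ} (hf : f b = - f a) : (ss f {a, b}).card ≤ 3 := by
  have h1 : ss f {a, b} ⊆ {0, f a, f b} := by
    intro x hx
    unfold ss at hx
    rw [mem_image] at hx
    obtain ⟨Y, hY, rfl⟩ := hx
    rw [mem_powerset] at hY
    simp only [mem_insert, mem_singleton]
    by_cases hab : a = b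
    · subst hab
      have : f a = 0 := by linarith
      left
      apply sum_eq_zero
      intro c hc
      have := hY hc
      simp only [mem_insert, mem_singleton, or_self] at this
      rw [this]; assumption
    by_cases ha : a ∈ Y
    · by_cases hb : b ∈ Y
      · have : Y = {a, b} := by
          apply Subset.antisymm hY
          intro c hc
          simp only [mem_insert, mem_singleton] at hc
          rcases hc with rfl | rfl <;> assumption
        rw [this, sum_pair hab, hf]
        left
        ring
      · have : Y = {a} := by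
          ext c
          rw [mem_singleton]
          constructor
          · intro hc
            have := hY hc
            simp only [mem_insert, mem_singleton] at this
            rcases this with h | h
            · exact h
            · rw [h] at hc; exact absurd hc hb
          · rintro rfl; exact ha
        rw [this, sum_singleton]
        right; left; rfl
    · by_cases hb : b ∈ Y
      · have : Y = {b} := by
          ext c
          rw [mem_singleton]
          constructor
          · intro hc
            have := hY hc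
            simp only [mem_insert, mem_singleton] at this
            rcases this with h | h
            · rw [h] at hc; exact absurd hc ha
            · exact h
          · rintro rfl; exact hb
        rw [this, sum_singleton]
        right; right; rfl
      · have : Y = ∅ := by
          rw [eq_empty_iff_forall_notMem]
          intro c hc
          have := hY hc
          simp only [mem_insert, mem_singleton] at this
          rcases this with h | h
          · rw [h] at hc; exact ha hc
          · rw [h] at hc; exact hb hc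
        rw [this, sum_empty]
        left; rfl
  exact (card_le_card h1).trans card_le_three

theorem ss_pairs_le (f : ℤ → ℚ) (j : ℤ) (hf : ∀ a, f (2 * j - a) = - f a) (L : Finset ℤ)
    (hL : ∀ a ∈ L, a < j) : (ss f (L ∪ L.image (fun a => 2 * j - a))).card ≤ 3 ^ L.card := by
  induction L using Finset.induction_on with
  | empty => simp [ss]
  | insert a L ha ih =>
    have h1 := ih (fun b hb => hL b (mem_insert_of_mem hb))
    have haj := hL a (mem_insert_self a L)
    have h2 : insert a L ∪ (insert a L).image (fun a => 2 * j - a) =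
        {a, 2 * j - a} ∪ (L ∪ L.image (fun a => 2 * j - a)) := by
      rw [image_insert]
      ext c
      simp only [mem_union, mem_insert, mem_singleton]
      tauto
    have h3 : Disjoint ({a, 2 * j - a} : Finset ℤ) (L ∪ L.image (fun a => 2 * j - a)) := by
      rw [disjoint_left]
      intro c hc hc'
      simp only [mem_insert, mem_singleton, mem_union, mem_image] at hc hc'
      rcases hc with rfl | rfl
      · rcases hc' with h | ⟨b, hb, hbc⟩
        · exact ha h
        · have := hL b (mem_insert_of_mem hb)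
          omega
      · rcases hc' with h | ⟨b, hb, hbc⟩
        · have := hL _ (mem_insert_of_mem h)
          omega
        · have : b = a := by omega
          rw [this] at hb
          exact ha hb
    rw [h2, card_insert_of_notMem ha, pow_succ, mul_comm (3 ^ L.card) 3]
    exact (ss_union_le f h3).trans (Nat.mul_le_mul (ss_pair_le f (hf a)) h1)

/-- the left ends of the pairs symmetric about `j` -/
noncomputable def lft (j : ℤ) (X : Finset ℤ) : Finset ℤ := X.filter (fun a => a < j ∧ 2 * j - a ∈ X)

theorem ss_main (f : ℤ → ℚ) (j : ℤ) (hf : ∀ a, f (2 * j - a) = - f a) (X : Finset ℤ) :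
    (ss f X).card * 4 ^ (lft j X).card ≤ 2 ^ X.card * 3 ^ (lft j X).card := by
  set L := lft j X with hL
  have hLj : ∀ a ∈ L, a < j := fun a ha => by
    rw [hL, lft, mem_filter] at ha
    exact ha.2.1
  set M := L ∪ L.image (fun a => 2 * j - a) with hM
  have hMX : M ⊆ X := by
    intro c hc
    rw [hM, mem_union, mem_image] at hc
    rcases hc with hc | ⟨a, ha, rfl⟩
    · rw [hL, lft, mem_filter] at hc; exact hc.1
    · rw [hL, lft, mem_filter] at ha; exact ha.2.2
  have hMc : M.card = 2 * L.card := by
    rw [hM, card_union_of_disjoint, card_image_of_injective _ (fun a b h => by simpa using h)]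
    · ring
    · rw [disjoint_left]
      intro c hc hc'
      rw [mem_image] at hc'
      obtain ⟨a, ha, hac⟩ := hc'
      have := hLj c hc
      have := hLj a ha
      omega
  have h1 := ss_pairs_le f j hf L hLj
  have h2 : (ss f X).card ≤ (ss f M).card * (ss f (X \ M)).card := by
    have := ss_union_le f (disjoint_sdiff (s := M) (t := X))
    rwa [union_sdiff_of_subset hMX] at this
  have h3 := ss_card_le f (X \ M)
  have h4 : (X \ M).card + 2 * L.card = X.card := by
    rw [← hMc, card_sdiff_add_card_eq_card hMX]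
  calc (ss f X).card * 4 ^ L.card ≤ (3 ^ L.card * 2 ^ (X \ M).card) * 4 ^ L.card :=
        Nat.mul_le_mul_right _ (h2.trans (Nat.mul_le_mul h1 h3))
    _ = 2 ^ ((X \ M).card + 2 * L.card) * 3 ^ L.card := by
        rw [show (4 : ℕ) = 2 ^ 2 by norm_num, ← pow_mul, pow_add]; ring
    _ = _ := by rw [h4]

theorem lf_sum (s : Option ℚ) (w : ℤ → ℚ × ℚ) (Y : Finset ℤ) :
    lf s (∑ a ∈ Y, w a) = ∑ a ∈ Y, lf s (w a) := by
  cases s with
  | none => simp only [lf, Prod.snd_sum]
  | some r => simp only [lf, Prod.fst_sum, Prod.snd_sum, sum_add_distrib, mul_sum]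

theorem exists_int (B : Finset (ℚ × ℚ)) : ∃ F : Finset (ℤ × ℤ),
    ∀ s, (pj s F).card = (B.image (lf s)).card := by
  obtain ⟨N, hN, hW⟩ := exists_denom (B.image Prod.fst ∪ B.image Prod.snd)
  choose! g hg using hW
  refine ⟨B.image (fun z => (g z.1, g z.2)), fun s => ?_⟩
  have hNq : (N : ℚ) ≠ 0 := by exact_mod_cast hN
  have h1 : pj s (B.image (fun z => (g z.1, g z.2))) =
      (B.image (lf s)).image (fun x => (N : ℚ) * x) := by
    unfold pj
    rw [image_image, image_image]
    apply image_congr
    intro z hz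
    have hz' : z ∈ B := hz
    have e1 := hg z.1 (mem_union_left _ (mem_image_of_mem Prod.fst hz'))
    have e2 := hg z.2 (mem_union_right _ (mem_image_of_mem Prod.snd hz'))
    simp only [Function.comp]
    cases s with
    | none => simp only [lf]; exact e2
    | some r => simp only [lf]; rw [e1, e2]; ring
  rw [h1, card_image_of_injective _ (fun a b h => mul_left_cancel₀ hNq h)]

variable {v : AbsoluteValue ℚ ℝ} {θ : ℚ} {w : ℤ → ℚ × ℚ}

/-- the indices of `U` which are not in conflict with an index of `U` -/
noncomputable def XU (v : AbsoluteValue ℚ ℝ) (e : ℤ → ℚ) (U : Finset ℤ) : Finset ℤ :=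
  U.filter (fun a => ∀ b ∈ U, ¬ Conf v e a b)

theorem count_U {e : ℤ → ℚ} (hv : 18 ≤ v θ) (he : ∀ a, e (a + 1) + e (a - 1) = θ * e a)
    (P : Finset ℤ) {a b : ℤ} (ha : a ∈ P) (hb : b ∈ P) (hab : a ≠ b) (hc : ¬ Conf v e a b) :
    2 ^ P.card ≤ 16 * (P.powerset.filter (fun U => a ∈ XU v e U ∧ b ∈ XU v e U)).card := by
  set C := P.filter (fun c => Conf v e a c ∨ Conf v e b c) with hC
  have hCc : C.card ≤ 2 := by
    have h1 : (P.filter (fun c => Conf v e a c)).card ≤ 1 := card_le_one.mpr (by
      intro x hx y hy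
      rw [mem_filter] at hx hy
      exact conf_unique hv he hx.2 hy.2)
    have h2 : (P.filter (fun c => Conf v e b c)).card ≤ 1 := card_le_one.mpr (by
      intro x hx y hy
      rw [mem_filter] at hx hy
      exact conf_unique hv he hx.2 hy.2)
    rw [hC, filter_or]
    exact (card_union_le _ _).trans (Nat.add_le_add h1 h2)
  have haC : a ∉ C := by
    rw [hC, mem_filter]
    rintro ⟨-, h | h⟩
    · exact h.1 rfl
    · exact hc h.symm
  have hbC : b ∉ C := by
    rw [hC, mem_filter]
    rintro ⟨-, h | h⟩
    · exact hc h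
    · exact h.1 rfl
  have hsub : ({a, b} : Finset ℤ) ⊆ P \ C := by
    intro x hx
    rw [mem_insert, mem_singleton] at hx
    rcases hx with rfl | rfl
    · exact mem_sdiff.mpr ⟨ha, haC⟩
    · exact mem_sdiff.mpr ⟨hb, hbC⟩
  have h1 : (Icc ({a, b} : Finset ℤ) (P \ C)).card = 2 ^ ((P \ C).card - 2) := by
    rw [card_Icc_finset hsub, card_pair hab]
  have h2 : Icc ({a, b} : Finset ℤ) (P \ C) ⊆
      P.powerset.filter (fun U => a ∈ XU v e U ∧ b ∈ XU v e U) := by
    intro U hU
    rw [mem_Icc] at hU
    have hUP : U ⊆ P := hU.2.trans sdiff_subset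
    have haU : a ∈ U := hU.1 (mem_insert_self _ _)
    have hbU : b ∈ U := hU.1 (mem_insert_of_mem (mem_singleton_self _))
    rw [mem_filter, mem_powerset]
    refine ⟨hUP, ?_, ?_⟩
    · rw [XU, mem_filter]
      refine ⟨haU, fun c hcU h => ?_⟩
      have := hU.2 hcU
      rw [mem_sdiff] at this
      exact this.2 (by rw [hC, mem_filter]; exact ⟨this.1, Or.inl h⟩)
    · rw [XU, mem_filter]
      refine ⟨hbU, fun c hcU h => ?_⟩
      have := hU.2 hcU
      rw [mem_sdiff] at this
      exact this.2 (by rw [hC, mem_filter]; exact ⟨this.1, Or.inr h⟩)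
  have h3 := card_le_card h2
  rw [h1] at h3
  have h4 : (P \ C).card + C.card = P.card :=
    card_sdiff_add_card_eq_card (by rw [hC]; exact filter_subset _ _)
  have h5 : 2 ≤ (P \ C).card := by
    have := card_le_card hsub
    rwa [card_pair hab] at this
  calc 2 ^ P.card ≤ 2 ^ (((P \ C).card - 2) + 4) := Nat.pow_le_pow_right (by norm_num) (by omega)
    _ = 16 * 2 ^ ((P \ C).card - 2) := by rw [pow_add]; ring
    _ ≤ _ := Nat.mul_le_mul_left _ h3

/-- the left ends of the good pairs -/
noncomputable def gd (v : AbsoluteValue ℚ ℝ) (e : ℤ → ℚ) (j : ℤ) (P : Finset ℤ) : Finset ℤ :=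
  P.filter (fun a => a < j ∧ 2 * j - a ∈ P ∧ ¬ Conf v e a (2 * j - a))

/-- the left ends of the pairs in conflict -/
noncomputable def bd (v : AbsoluteValue ℚ ℝ) (e : ℤ → ℚ) (j : ℤ) (P : Finset ℤ) : Finset ℤ :=
  P.filter (fun a => a < j ∧ 2 * j - a ∈ P ∧ Conf v e a (2 * j - a))

theorem sum_lft {e : ℤ → ℚ} (hv : 18 ≤ v θ) (he : ∀ a, e (a + 1) + e (a - 1) = θ * e a)
    (P : Finset ℤ) (j : ℤ) :
    2 ^ P.card * (gd v e j P).card ≤ 16 * ∑ U ∈ P.powerset, (lft j (XU v e U)).card := by
  have h1 : ∑ a ∈ gd v e j P, (P.powerset.filter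
      (fun U => a ∈ XU v e U ∧ 2 * j - a ∈ XU v e U)).card ≤
      ∑ U ∈ P.powerset, (lft j (XU v e U)).card := by
    simp only [card_filter]
    rw [sum_comm]
    apply sum_le_sum
    intro U hU
    rw [mem_powerset] at hU
    rw [← card_filter]
    apply card_le_card
    intro a ha
    rw [mem_filter] at ha
    rw [lft, mem_filter]
    have := ha.1
    rw [gd, mem_filter] at this
    exact ⟨ha.2.1, this.2.1, ha.2.2⟩
  have h2 : ∀ a ∈ gd v e j P, 2 ^ P.card ≤ 16 * (P.powerset.filter
      (fun U => a ∈ XU v e U ∧ 2 * j - a ∈ XU v e U)).card := by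
    intro a ha
    rw [gd, mem_filter] at ha
    exact count_U hv he P ha.1 ha.2.2.1 (by have := ha.2.1; omega) ha.2.2.2
  have h3 := sum_le_sum h2
  rw [sum_const, smul_eq_mul, ← mul_sum] at h3
  calc 2 ^ P.card * (gd v e j P).card = (gd v e j P).card * 2 ^ P.card := mul_comm _ _
    _ ≤ _ := h3
    _ ≤ _ := Nat.mul_le_mul_left _ h1

theorem sum_bd {e : ℤ → ℚ} (hv : 18 ≤ v θ) (he : ∀ a, e (a + 1) + e (a - 1) = θ * e a)
    (P J : Finset ℤ) : ∑ j ∈ J, (bd v e j P).card ≤ P.card := by
  rw [← card_biUnion]
  · apply card_le_card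
    intro a ha
    rw [mem_biUnion] at ha
    obtain ⟨j, _, hj⟩ := ha
    rw [bd, mem_filter] at hj
    exact hj.1
  · intro i _ j _ hij
    rw [Function.onFun, disjoint_left]
    intro a ha hb
    rw [bd, mem_filter] at ha hb
    have := conf_unique hv he ha.2.2.2 hb.2.2.2
    omega

theorem card_gd {e : ℤ → ℚ} (hv : 18 ≤ v θ) (he : ∀ a, e (a + 1) + e (a - 1) = θ * e a)
    (hne : ∃ a, e a ≠ 0) (K m j : ℤ) (hj : |j| ≤ m) :
    K - m - 2 ≤ ((gd v e j ((Icc (-K) K).filter (fun a => e a ≠ 0))).card : ℤ) +
      (bd v e j ((Icc (-K) K).filter (fun a => e a ≠ 0))).card := by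
  set P := (Icc (-K) K).filter (fun a => e a ≠ 0) with hP
  have h1 : (Ico (max (-K) (2 * j - K)) j) ⊆ gd v e j P ∪ bd v e j P ∪
      ((Icc (-K) K).filter (fun a => e a = 0) ∪
        (Icc (-K) K).filter (fun a => e (2 * j - a) = 0)) := by
    intro a ha
    rw [mem_Ico, max_le_iff] at ha
    rw [abs_le] at hj
    have haK : a ∈ Icc (-K) K := by
      rw [mem_Icc]
      constructor
      · exact ha.1.1
      · rcases le_total 0 j with h | h <;> omega
    have haK' : 2 * j - a ∈ Icc (-K) K := by
      rw [mem_Icc]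
      constructor <;> omega
    simp only [mem_union]
    by_cases h0 : e a = 0
    · right; left
      rw [mem_filter]; exact ⟨haK, h0⟩
    by_cases h0' : e (2 * j - a) = 0
    · right; right
      rw [mem_filter]; exact ⟨haK, h0'⟩
    left
    have haP : a ∈ P := by rw [hP, mem_filter]; exact ⟨haK, h0⟩
    have haP' : 2 * j - a ∈ P := by rw [hP, mem_filter]; exact ⟨haK', h0'⟩
    by_cases hc : Conf v e a (2 * j - a)
    · right
      rw [bd, mem_filter]; exact ⟨haP, ha.2, haP', hc⟩
    · left
      rw [gd, mem_filter]; exact ⟨haP, ha.2, haP', hc⟩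
  have h2 := card_le_card h1
  have h3 : ((Icc (-K) K).filter (fun a => e a = 0)).card ≤ 1 := card_le_one.mpr (by
    intro x hx y hy
    rw [mem_filter] at hx hy
    exact zero_unique hv he hne hx.2 hy.2)
  have h4 : ((Icc (-K) K).filter (fun a => e (2 * j - a) = 0)).card ≤ 1 := card_le_one.mpr (by
    intro x hx y hy
    rw [mem_filter] at hx hy
    have := zero_unique hv he hne hx.2 hy.2
    omega)
  have h5 := (h2.trans (card_union_le _ _)).trans (Nat.add_le_add (card_union_le _ _) (card_union_le _ _))
  rw [Int.card_Ico] at h5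
  rw [abs_le] at hj
  have h6 : K - m ≤ j - max (-K) (2 * j - K) := by
    rcases max_cases (-K) (2 * j - K) with ⟨h, _⟩ | ⟨h, _⟩ <;> rw [h] <;> omega
  omega

theorem final_ineq {N n c : ℕ} (h : c * 4 ^ N ≤ 2 ^ n * 3 ^ N) (hN : n ≤ 72 * N) :
    c ^ 180 * 2 ^ n ≤ 2 ^ (180 * n) := by
  have h1 : c ^ 5 * 2 ^ (2 * N) ≤ 2 ^ (5 * n) := by
    have h2 : (c * 4 ^ N) ^ 5 ≤ (2 ^ n * 3 ^ N) ^ 5 := Nat.pow_le_pow_left h 5
    have h3 : (3 ^ N) ^ 5 ≤ (2 ^ (8 * N) : ℕ) := by
      rw [← pow_mul, mul_comm N 5, pow_mul, pow_mul]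
      exact Nat.pow_le_pow_left (by norm_num) N
    have h4 : c ^ 5 * 2 ^ (2 * N) * 2 ^ (8 * N) ≤ 2 ^ (5 * n) * 2 ^ (8 * N) := by
      calc c ^ 5 * 2 ^ (2 * N) * 2 ^ (8 * N) = (c * 4 ^ N) ^ 5 := by
            rw [mul_pow, show (4 : ℕ) = 2 ^ 2 by norm_num, ← pow_mul, ← pow_mul, mul_assoc,
              ← pow_add]
            congr 2; ring
        _ ≤ _ := h2
        _ = 2 ^ (5 * n) * (3 ^ N) ^ 5 := by rw [mul_pow, ← pow_mul, mul_comm n 5]
        _ ≤ _ := Nat.mul_le_mul_left _ h3
    exact Nat.le_of_mul_le_mul_right h4 (by positivity)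
  calc c ^ 180 * 2 ^ n ≤ c ^ 180 * 2 ^ (72 * N) :=
        Nat.mul_le_mul_left _ (Nat.pow_le_pow_right (by norm_num) hN)
    _ = (c ^ 5 * 2 ^ (2 * N)) ^ 36 := by
        rw [mul_pow, ← pow_mul, ← pow_mul]; congr 2; ring
    _ ≤ (2 ^ (5 * n)) ^ 36 := Nat.pow_le_pow_left h1 _
    _ = _ := by rw [← pow_mul]; congr 1; ring

/-- the family of sets for a sequence of slopes -/
theorem core (hv : 18 ≤ v θ) (hw : ∀ a, w (a + 1) + w (a - 1) = θ • w a)
    (hne : ∃ a, (w a).1 - (w a).2 ≠ 0) (m : ℕ) (J : Finset ℤ) (hJ : ∀ j ∈ J, |j| ≤ m) :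
    ∃ B ⊆ J, B.card ≤ 4 ∧ ∃ (A : Finset (ℤ × ℤ)) (n : ℕ), 1 ≤ n ∧
      (pj (some (-1)) A).card = 2 ^ n ∧ (∀ s, (pj s A).card ≤ 2 ^ n) ∧
      ∀ j ∈ J, j ∉ B → ∀ s, lf s (w j) = 0 → (pj s A).card ^ 180 * 2 ^ n ≤ 2 ^ (180 * n) := by
  set e : ℤ → ℚ := fun a => (w a).1 - (w a).2 with hedef
  have he : ∀ a, e (a + 1) + e (a - 1) = θ * e a := by
    intro a
    have h1 := congrArg Prod.fst (hw a)
    have h2 := congrArg Prod.snd (hw a)
    simp only [Prod.fst_add, Prod.snd_add, Prod.smul_fst, Prod.smul_snd, smul_eq_mul] at h1 h2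
    simp only [hedef]
    linear_combination h1 - h2
  -- the forms are odd about their index
  have hodd : ∀ (j : ℤ) (s : Option ℚ), lf s (w j) = 0 → ∀ a, lf s (w (2 * j - a)) = - lf s (w a) := by
    intro j s hs
    have hrec : ∀ a, lf s (w (a + 1)) + lf s (w (a - 1)) = θ * lf s (w a) := by
      intro a
      have h1 := congrArg Prod.fst (hw a)
      have h2 := congrArg Prod.snd (hw a)
      simp only [Prod.fst_add, Prod.snd_add, Prod.smul_fst, Prod.smul_snd, smul_eq_mul] at h1 h2
      cases s with
      | none => simp only [lf]; exact h2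
      | some r => simp only [lf]; linear_combination h1 + r * h2
    have key : ∀ c : ℕ, lf s (w (j + c)) = - lf s (w (j - c)) ∧
        lf s (w (j + c + 1)) = - lf s (w (j - c - 1)) := by
      intro c
      induction c with
      | zero =>
        refine ⟨by simp [hs], ?_⟩
        have := hrec j
        rw [hs, mul_zero] at this
        simp only [Nat.cast_zero, add_zero, sub_zero]
        linarith
      | succ c ih =>
        have h1 := hrec (j + c + 1)
        have h2 := hrec (j - c - 1)
        rw [add_sub_cancel_right] at h1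
        rw [sub_add_cancel] at h2
        push_cast
        rw [← add_assoc, ← sub_sub]
        refine ⟨ih.2, ?_⟩
        linear_combination h1 + h2 + θ * ih.2 - ih.1
    intro a
    rcases le_total j a with h | h
    · obtain ⟨n, hn⟩ := Int.eq_ofNat_of_zero_le (show 0 ≤ a - j by omega)
      have := (key n).1
      rw [show j + (n : ℤ) = a by omega, show j - (n : ℤ) = 2 * j - a by omega] at this
      linarith
    · obtain ⟨n, hn⟩ := Int.eq_ofNat_of_zero_le (show 0 ≤ j - a by omega)
      have := (key n).1
      rw [show j + (n : ℤ) = 2 * j - a by omega, show j - (n : ℤ) = a by omega] at this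
      exact this
  obtain ⟨K, hK⟩ : ∃ K : ℤ, K = 18 * m + 40 := ⟨_, rfl⟩
  set P := (Icc (-K) K).filter (fun a => e a ≠ 0) with hP
  have hPc : (P.card : ℤ) ≤ 2 * K + 1 := by
    have h1 : P.card ≤ (Icc (-K) K).card := card_filter_le _ _
    rw [Int.card_Icc] at h1
    omega
  refine ⟨J.filter (fun j => K ≤ 2 * (bd v e j P).card), filter_subset _ _, ?_, ?_⟩
  · have h1 : ∑ j ∈ J.filter (fun j => K ≤ 2 * (bd v e j P).card), K ≤
        ∑ j ∈ J.filter (fun j => K ≤ 2 * (bd v e j P).card), 2 * ((bd v e j P).card : ℤ) :=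
      sum_le_sum (fun j hj => (mem_filter.mp hj).2)
    rw [sum_const, ← mul_sum] at h1
    have h2 := sum_bd hv he P (J.filter (fun j => K ≤ 2 * (bd v e j P).card))
    have h3 : ∑ j ∈ J.filter (fun j => K ≤ 2 * (bd v e j P).card), ((bd v e j P).card : ℤ) ≤
        P.card := by exact_mod_cast h2
    rw [nsmul_eq_mul] at h1
    by_contra hcon
    push Not at hcon
    have h4 : (5 : ℤ) ≤ ((J.filter (fun j => K ≤ 2 * (bd v e j P).card)).card : ℤ) := by
      exact_mod_cast hcon
    have hKpos : 0 < K := by omega
    nlinarith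
  · -- the sets
    have hF : ∀ U : Finset ℤ, ∃ F : Finset (ℤ × ℤ), ∀ s, (pj s F).card =
        (ss (fun a => lf s (w a)) (XU v e U)).card := by
      intro U
      obtain ⟨F, hF⟩ := exists_int ((XU v e U).powerset.image (fun Y => ∑ a ∈ Y, w a))
      refine ⟨F, fun s => ?_⟩
      rw [hF, image_image]
      unfold ss
      congr 1
      apply image_congr
      intro Y _
      simp only [Function.comp, lf_sum]
    choose F hF using hF
    obtain ⟨C, hC1, hC2⟩ := exists_prod_family' P.powerset F
    set n := ∑ U ∈ P.powerset, (XU v e U).card with hn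
    have hXP : ∀ U ∈ P.powerset, ∀ a ∈ XU v e U, e a ≠ 0 := by
      intro U hU a ha
      rw [mem_powerset] at hU
      rw [XU, mem_filter] at ha
      have := hU ha.1
      rw [hP, mem_filter] at this
      exact this.2
    refine ⟨C, n, ?_, ?_, ?_, ?_⟩
    · -- a singleton
      obtain ⟨a, ha⟩ : P.Nonempty := by
        rw [nonempty_iff_ne_empty]
        intro h
        have h0 : e 0 = 0 := by
          by_contra h0
          have : (0 : ℤ) ∈ P := by
            rw [hP, mem_filter, mem_Icc]
            exact ⟨⟨by omega, by omega⟩, h0⟩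
          rw [h] at this
          exact absurd this (notMem_empty _)
        have h1 : e 1 = 0 := by
          by_contra h1
          have : (1 : ℤ) ∈ P := by
            rw [hP, mem_filter, mem_Icc]
            exact ⟨⟨by omega, by omega⟩, h1⟩
          rw [h] at this
          exact absurd this (notMem_empty _)
        have := zero_unique hv he hne h0 h1
        norm_num at this
      have h1 : (XU v e {a}).card = 1 := by
        have : XU v e {a} = {a} := by
          rw [XU, filter_eq_self]
          intro x hx b hb h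
          rw [mem_singleton] at hx hb
          rw [hx, hb] at h
          exact h.1 rfl
        rw [this, card_singleton]
      have h2 : (XU v e {a}).card ≤ n := by
        rw [hn]
        exact single_le_sum (f := fun U => (XU v e U).card) (fun _ _ => Nat.zero_le _)
          (mem_powerset.mpr (singleton_subset_iff.mpr ha))
      omega
    · rw [hC1, hn, ← prod_pow_eq_pow_sum]
      apply prod_congr rfl
      intro U hU
      rw [hF]
      have h1 : (fun a => lf (some (-1)) (w a)) = e := by
        funext a
        simp only [lf, hedef]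
        ring
      rw [h1]
      unfold ss
      rw [card_image_of_injOn, card_powerset]
      exact sums_inj (XU v e U) (by
        intro a ha b hb
        rw [XU, mem_filter] at ha hb
        exact ha.2 b hb.1) (hXP U hU)
    · intro s
      refine (hC2 s).trans ?_
      rw [hn, ← prod_pow_eq_pow_sum]
      exact prod_le_prod' (fun U _ => by rw [hF]; exact ss_card_le _ _)
    · intro j hj hjB s hs
      have hjb : 2 * ((bd v e j P).card : ℤ) < K := by
        by_contra hcon
        exact hjB (mem_filter.mpr ⟨hj, by omega⟩)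
      set N := ∑ U ∈ P.powerset, (lft j (XU v e U)).card with hNdef
      have h1 : (∏ U ∈ P.powerset, (pj s (F U)).card) * 4 ^ N ≤ 2 ^ n * 3 ^ N := by
        rw [hNdef, hn, ← prod_pow_eq_pow_sum, ← prod_pow_eq_pow_sum, ← prod_pow_eq_pow_sum,
          ← prod_mul_distrib, ← prod_mul_distrib]
        apply prod_le_prod'
        intro U _
        rw [hF]
        exact ss_main _ j (hodd j s hs) _
      have h2 : (pj s C).card * 4 ^ N ≤ 2 ^ n * 3 ^ N :=
        (Nat.mul_le_mul_right _ (hC2 s)).trans h1
      refine final_ineq h2 ?_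
      -- `n ≤ 72 N`
      have h3 := sum_lft hv he P j
      rw [← hNdef] at h3
      have h4 : n ≤ 2 ^ P.card * P.card := by
        rw [hn]
        calc ∑ U ∈ P.powerset, (XU v e U).card ≤ ∑ U ∈ P.powerset, P.card := by
              apply sum_le_sum
              intro U hU
              rw [mem_powerset] at hU
              exact (card_le_card (filter_subset _ _)).trans (card_le_card hU)
          _ = _ := by rw [sum_const, card_powerset, smul_eq_mul]
      have h5 := card_gd hv he hne K m j (hJ j hj)
      rw [← hP] at h5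
      have h6 : 2 * P.card ≤ 9 * (gd v e j P).card := by
        have : (2 : ℤ) * P.card ≤ 9 * (gd v e j P).card := by omega
        exact_mod_cast this
      have h7 : 2 * (2 ^ P.card * P.card) ≤ 9 * (2 ^ P.card * (gd v e j P).card) := by
        calc 2 * (2 ^ P.card * P.card) = 2 ^ P.card * (2 * P.card) := by ring
          _ ≤ 2 ^ P.card * (9 * (gd v e j P).card) := Nat.mul_le_mul_left _ h6
          _ = _ := by ring
      omega

end Pool.Agent.H84.AK
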