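import Pool.Agent.H84.AK.Core
import Mathlib.RingTheory.Polynomial.Chebyshev

/-! # Orbits of linear fractional maps (helper file of helper84) -/

set_option autoImplicit false

namespace Pool.Agent.H84.AK

open Finset
open Pool.Agent.H989.Slopes
open scoped Classical

/-- the linear fractional map `s ↦ (a s + b) / (c s + d)` of `ℚ ∪ {∞}`, with `∞` written `none`,
for the matrix with the rows `(a, b)` and `(c, d)` -/
noncomputable def mob (g : Matrix (Fin 2) (Fin 2) ℚ) : Option ℚ → Option ℚ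
  | none => if g 1 0 = 0 then none else some (g 0 0 / g 1 0)
  | some s => if g 1 0 * s + g 1 1 = 0 then none
      else some ((g 0 0 * s + g 0 1) / (g 1 0 * s + g 1 1))

/-- the action on the vectors killed by the forms -/
def mv (g : Matrix (Fin 2) (Fin 2) ℚ) (z : ℚ × ℚ) : ℚ × ℚ :=
  (g 0 0 * z.1 - g 0 1 * z.2, -g 1 0 * z.1 + g 1 1 * z.2)

theorem lf_mob {g : Matrix (Fin 2) (Fin 2) ℚ} {s : Option ℚ} {z : ℚ × ℚ}
    (h : lf s z = 0) : lf (mob g s) (mv g z) = 0 := by
  cases s with
  | none =>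
    simp only [lf] at h
    unfold mob mv
    by_cases hc : g 1 0 = 0
    · simp only [hc, if_true, lf]; rw [h]; ring
    · simp only [hc, if_false, lf]; rw [h]; field_simp; ring
  | some r =>
    simp only [lf] at h
    unfold mob mv
    have hz : z.1 = - (r * z.2) := by linarith
    by_cases hc : g 1 0 * r + g 1 1 = 0
    · simp only [hc, if_true, lf]
      rw [hz]
      linear_combination z.2 * hc
    · simp only [hc, if_false, lf]
      rw [hz]
      have key : (g 0 0 * r + g 0 1) / (g 1 0 * r + g 1 1) * (g 1 0 * r + g 1 1) =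
          g 0 0 * r + g 0 1 := div_mul_cancel₀ _ hc
      linear_combination z.2 * key

theorem det_eq (g : Matrix (Fin 2) (Fin 2) ℚ) : g.det = g 0 0 * g 1 1 - g 0 1 * g 1 0 :=
  Matrix.det_fin_two g

theorem trace_eq (g : Matrix (Fin 2) (Fin 2) ℚ) : g.trace = g 0 0 + g 1 1 :=
  Matrix.trace_fin_two g

theorem mv_ne {g : Matrix (Fin 2) (Fin 2) ℚ} (hg : g.det ≠ 0) {z : ℚ × ℚ} (hz : z ≠ 0) :
    mv g z ≠ 0 := by
  intro h
  apply hz
  have h1 := congrArg Prod.fst h
  have h2 := congrArg Prod.snd h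
  simp only [mv, Prod.fst_zero, Prod.snd_zero] at h1 h2
  rw [det_eq] at hg
  have h3 : (g 0 0 * g 1 1 - g 0 1 * g 1 0) * z.1 = 0 := by
    linear_combination g 1 1 * h1 + g 0 1 * h2
  have h4 : (g 0 0 * g 1 1 - g 0 1 * g 1 0) * z.2 = 0 := by
    linear_combination g 1 0 * h1 + g 0 0 * h2
  ext
  · exact (mul_eq_zero.mp h3).resolve_left hg
  · exact (mul_eq_zero.mp h4).resolve_left hg

/-- Cayley-Hamilton -/
theorem mv_mv (g : Matrix (Fin 2) (Fin 2) ℚ) (z : ℚ × ℚ) :
    mv g (mv g z) = g.trace • mv g z - g.det • z := by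
  rw [det_eq, trace_eq]
  ext
  · simp only [mv, Prod.fst_sub, Prod.smul_fst, smul_eq_mul]; ring
  · simp only [mv, Prod.snd_sub, Prod.smul_snd, smul_eq_mul]; ring

/-- a vector killed by the form of a slope -/
theorem exists_ker (s : Option ℚ) : ∃ z : ℚ × ℚ, z ≠ 0 ∧ lf s z = 0 := by
  cases s with
  | none => exact ⟨(1, 0), by simp, by simp [lf]⟩
  | some r => exact ⟨(-r, 1), by simp, by simp [lf]⟩

/-- the slope is determined by a vector killed by its form -/
theorem slope_unique {s t : Option ℚ} {z : ℚ × ℚ} (hz : z ≠ 0) (hs : lf s z = 0)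
    (ht : lf t z = 0) : s = t := by
  have hcase : z.1 ≠ 0 ∨ z.2 ≠ 0 := by
    by_contra h
    push Not at h
    exact hz (Prod.ext h.1 h.2)
  cases s with
  | none =>
    cases t with
    | none => rfl
    | some r =>
      simp only [lf] at hs ht
      rw [hs] at ht
      rcases hcase with h | h
      · exact absurd (by linarith) h
      · exact absurd hs h
  | some q =>
    cases t with
    | none =>
      simp only [lf] at hs ht
      rw [ht] at hs
      rcases hcase with h | h
      · exact absurd (by linarith) h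
      · exact absurd ht h
    | some r =>
      simp only [lf] at hs ht
      have h1 : (q - r) * z.2 = 0 := by linear_combination hs - ht
      rcases mul_eq_zero.mp h1 with h | h
      · congr 1; linarith
      · rw [h] at hs
        rcases hcase with h' | h'
        · exact absurd (by linarith) h'
        · exact absurd h h'

/-- the orbit of vectors -/
def zs (g : Matrix (Fin 2) (Fin 2) ℚ) (z : ℚ × ℚ) (n : ℕ) : ℚ × ℚ := (mv g)^[n] z

theorem zs_succ (g : Matrix (Fin 2) (Fin 2) ℚ) (z : ℚ × ℚ) (n : ℕ) :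
    zs g z (n + 1) = mv g (zs g z n) := Function.iterate_succ_apply' _ _ _

theorem zs_rec (g : Matrix (Fin 2) (Fin 2) ℚ) (z : ℚ × ℚ) (n : ℕ) :
    zs g z (n + 2) = g.trace • zs g z (n + 1) - g.det • zs g z n := by
  rw [zs_succ, zs_succ, mv_mv]

theorem zs_ne {g : Matrix (Fin 2) (Fin 2) ℚ} (hg : g.det ≠ 0) {z : ℚ × ℚ} (hz : z ≠ 0) (n : ℕ) :
    zs g z n ≠ 0 := by
  induction n with
  | zero => exact hz
  | succ n ih => rw [zs_succ]; exact mv_ne hg ih

theorem lf_zs {g : Matrix (Fin 2) (Fin 2) ℚ} {s : Option ℚ} {z : ℚ × ℚ}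
    (h : lf s z = 0) (n : ℕ) : lf ((mob g)^[n] s) (zs g z n) = 0 := by
  induction n with
  | zero => exact h
  | succ n ih =>
    rw [zs_succ, Function.iterate_succ_apply']
    exact lf_mob ih

theorem zs_eight {g : Matrix (Fin 2) (Fin 2) ℚ} (hg : g.det ≠ 0) (z : ℚ × ℚ) (n : ℕ) :
    zs g z (n + 16) + (g.det ^ 8) • zs g z n =
      (g.det ^ 4 * (((g.trace ^ 2 / g.det - 2) ^ 2 - 2) ^ 2 - 2)) • zs g z (n + 8) := by
  have r := zs_rec g z
  have h2 : ∀ n, zs g z (n + 4) + (g.det ^ 2) • zs g z n =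
      (g.trace ^ 2 - 2 * g.det) • zs g z (n + 2) := by
    intro n
    have e1 := r (n + 2)
    have e2 := r (n + 1)
    have e3 := r n
    simp only [add_assoc] at e1 e2 e3
    norm_num at e1 e2 e3
    rw [e1, e2, e3]
    module
  have h4 : ∀ n, zs g z (n + 8) + (g.det ^ 4) • zs g z n =
      ((g.trace ^ 2 - 2 * g.det) ^ 2 - 2 * g.det ^ 2) • zs g z (n + 4) := by
    intro n
    have e1 := h2 (n + 4)
    have e2 := h2 (n + 2)
    have e3 := h2 n
    simp only [add_assoc] at e1 e2 e3
    norm_num at e1 e2 e3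
    linear_combination (norm := module) e1 + (g.trace ^ 2 - 2 * g.det) • e2 + (g.det ^ 2) • e3
  have h8 : zs g z (n + 16) + (g.det ^ 8) • zs g z n =
      (((g.trace ^ 2 - 2 * g.det) ^ 2 - 2 * g.det ^ 2) ^ 2 - 2 * g.det ^ 4) • zs g z (n + 8) := by
    have e1 := h4 (n + 8)
    have e2 := h4 (n + 4)
    have e3 := h4 n
    simp only [add_assoc] at e1 e2 e3
    norm_num at e1 e2 e3
    linear_combination (norm := module) e1 +
      ((g.trace ^ 2 - 2 * g.det) ^ 2 - 2 * g.det ^ 2) • e2 + (g.det ^ 4) • e3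
  rw [h8]
  congr 1
  field_simp

/-- the two-sided extension of a solution of the recurrence -/
theorem exists_ext (θ x₀ x₁ : ℚ) : ∃ f : ℤ → ℚ, f 0 = x₀ ∧ f 1 = x₁ ∧
    ∀ a, f (a + 1) + f (a - 1) = θ * f a := by
  refine ⟨fun a => x₁ * (Polynomial.Chebyshev.S ℚ (a - 1)).eval θ -
    x₀ * (Polynomial.Chebyshev.S ℚ (a - 2)).eval θ, ?_, ?_, ?_⟩
  · norm_num [Polynomial.Chebyshev.S_neg_one, Polynomial.Chebyshev.S_neg_two]
  · norm_num [Polynomial.Chebyshev.S_neg_one, Polynomial.Chebyshev.S_zero]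
  · intro a
    have h1 := Polynomial.Chebyshev.S_add_two ℚ (a - 2)
    have h2 := Polynomial.Chebyshev.S_add_two ℚ (a - 3)
    have h1' := congrArg (Polynomial.eval θ) h1
    have h2' := congrArg (Polynomial.eval θ) h2
    simp only [Polynomial.eval_sub, Polynomial.eval_mul, Polynomial.eval_X] at h1' h2'
    rw [show a - 2 + 2 = a by ring, show a - 2 + 1 = a - 1 by ring] at h1'
    rw [show a - 3 + 2 = a - 1 by ring, show a - 3 + 1 = a - 2 by ring] at h2'
    simp only
    rw [show a + 1 - 1 = a by ring, show a + 1 - 2 = a - 1 by ring, show a - 1 - 1 = a - 2 by ring,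
      show a - 1 - 2 = a - 3 by ring]
    linear_combination x₁ * h1' - x₀ * h2'

/-- the two-sided sequence of normalised vectors -/
theorem exists_w {g : Matrix (Fin 2) (Fin 2) ℚ} (hg : g.det ≠ 0) (z : ℚ × ℚ) (ρ : ℕ) :
    ∃ w : ℤ → ℚ × ℚ,
      (∀ a, w (a + 1) + w (a - 1) =
        (((g.trace ^ 2 / g.det - 2) ^ 2 - 2) ^ 2 - 2) • w a) ∧
      ∀ k : ℕ, w k = (1 / g.det ^ (4 * k)) • zs g z (8 * k + ρ) := by
  set θ := ((g.trace ^ 2 / g.det - 2) ^ 2 - 2) ^ 2 - 2 with hθ
  obtain ⟨f, f0, f1, hf⟩ := exists_ext θ (zs g z ρ).1 ((1 / g.det ^ 4) * (zs g z (8 + ρ)).1)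
  obtain ⟨h, h0, h1, hh⟩ := exists_ext θ (zs g z ρ).2 ((1 / g.det ^ 4) * (zs g z (8 + ρ)).2)
  refine ⟨fun a => (f a, h a), fun a => ?_, ?_⟩
  · ext
    · simp only [Prod.fst_add, Prod.smul_fst, smul_eq_mul]; exact hf a
    · simp only [Prod.snd_add, Prod.smul_snd, smul_eq_mul]; exact hh a
  · have key : ∀ k : ℕ, (f k, h k) = (1 / g.det ^ (4 * k)) • zs g z (8 * k + ρ) ∧
        (f (k + 1), h (k + 1)) = (1 / g.det ^ (4 * (k + 1))) • zs g z (8 * (k + 1) + ρ) := by
      intro k
      induction k with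
      | zero =>
        constructor
        · ext <;> simp [f0, h0]
        · ext <;> simp [f1, h1]
      | succ k ih =>
        refine ⟨by exact_mod_cast ih.2, ?_⟩
        have e := zs_eight hg z (8 * k + ρ)
        rw [← hθ] at e
        have e1 := hf (k + 1)
        have e2 := hh (k + 1)
        rw [add_sub_cancel_right] at e1 e2
        have i1 := ih.1
        have i2 := ih.2
        rw [Prod.ext_iff] at i1 i2 e
        simp only [Prod.smul_fst, Prod.smul_snd, smul_eq_mul, Prod.fst_add, Prod.snd_add] at i1 i2 e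
        rw [i1.1, i2.1] at e1
        rw [i1.2, i2.2] at e2
        rw [show 8 * k + ρ + 8 = 8 * (k + 1) + ρ by ring,
          show 8 * k + ρ + 16 = 8 * (k + 1 + 1) + ρ by ring] at e
        push_cast
        have hd : g.det ^ (4 * k) ≠ 0 := pow_ne_zero _ hg
        have p1 : g.det ^ (4 * (k + 1)) = g.det ^ (4 * k) * g.det ^ 4 := by ring
        have p2 : g.det ^ (4 * (k + 1 + 1)) = g.det ^ (4 * k) * g.det ^ 8 := by ring
        ext
        · simp only [Prod.smul_fst, smul_eq_mul]
          rw [p1] at e1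
          rw [p2]
          have : f (k + 1 + 1) = θ * (1 / (g.det ^ (4 * k) * g.det ^ 4) *
              (zs g z (8 * (k + 1) + ρ)).1) - 1 / g.det ^ (4 * k) * (zs g z (8 * k + ρ)).1 := by
            linarith
          rw [this]
          have e3 := e.1
          field_simp
          linear_combination -e3
        · simp only [Prod.smul_snd, smul_eq_mul]
          rw [p1] at e2
          rw [p2]
          have : h (k + 1 + 1) = θ * (1 / (g.det ^ (4 * k) * g.det ^ 4) *
              (zs g z (8 * (k + 1) + ρ)).2) - 1 / g.det ^ (4 * k) * (zs g z (8 * k + ρ)).2 := by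
            linarith
          rw [this]
          have e3 := e.2
          field_simp
          linear_combination -e3
    exact fun k => (key k).1

/-- empty or handled with at most `q` parts -/
def CL (q : ℕ) (T : Set (Option ℚ)) : Prop := T = ∅ ∨ ∃ Q, Q ≤ q ∧ Cov Q T

theorem CL.union {q₁ q₂ : ℕ} {T₁ T₂ : Set (Option ℚ)} (h₁ : CL q₁ T₁) (h₂ : CL q₂ T₂) :
    CL (q₁ + q₂) (T₁ ∪ T₂) := by
  rcases h₁ with rfl | ⟨Q₁, hQ₁, c₁⟩
  · rcases h₂ with rfl | ⟨Q₂, hQ₂, c₂⟩
    · left; simp
    · right; exact ⟨Q₂, by omega, by rwa [Set.empty_union]⟩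
  · rcases h₂ with rfl | ⟨Q₂, hQ₂, c₂⟩
    · right; exact ⟨Q₁, by omega, by rwa [Set.union_empty]⟩
    · right; exact ⟨Q₁ + Q₂, by omega, c₁.union c₂⟩

theorem CL.mono {q : ℕ} {T T' : Set (Option ℚ)} (h : CL q T) (hT : T' ⊆ T) : CL q T' := by
  rcases h with rfl | ⟨Q, hQ, c⟩
  · left; exact Set.subset_empty_iff.mp hT
  · right; exact ⟨Q, hQ, c.mono hT⟩

theorem CL.iUnion {ι : Type} (s : Finset ι) (q : ℕ) (T : ι → Set (Option ℚ))
    (h : ∀ i ∈ s, CL q (T i)) : CL (s.card * q) (⋃ i ∈ s, T i) := by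
  induction s using Finset.induction_on with
  | empty => left; simp
  | insert a s ha ih =>
    rw [card_insert_of_notMem ha, add_mul, one_mul, add_comm]
    have h1 : (⋃ i ∈ insert a s, T i) = T a ∪ ⋃ i ∈ s, T i := by
      simp
    rw [h1]
    exact (h a (mem_insert_self a s)).union (ih (fun i hi => h i (mem_insert_of_mem hi)))

/-- one residue class of one orbit -/
theorem class_CL {g : Matrix (Fin 2) (Fin 2) ℚ} (hg : g.det ≠ 0)
    (hk : ∀ k : ℕ, k ≤ 4 → g.trace ^ 2 ≠ k * g.det) (r : Option ℚ) (ρ : ℕ)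
    (S : Finset (Option ℚ)) (hS : some (-1) ∉ S)
    (hSo : ∀ s ∈ S, ∃ k : ℕ, s = (mob g)^[8 * k + ρ] r) : CL 5 (S : Set (Option ℚ)) := by
  rcases S.eq_empty_or_nonempty with h0 | hSne
  · left; rw [h0]; simp
  obtain ⟨z, hz, hrz⟩ := exists_ker r
  obtain ⟨w, hw, hwz⟩ := exists_w hg z ρ
  choose! κ hκ using hSo
  have hlf : ∀ k : ℕ, lf ((mob g)^[8 * k + ρ] r) (w k) = 0 := by
    intro k
    rw [hwz]
    have h1 := lf_zs (g := g) hrz (8 * k + ρ)
    cases h2 : (mob g)^[8 * k + ρ] r with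
    | none => rw [h2] at h1; simp only [lf, Prod.smul_snd, smul_eq_mul] at h1 ⊢; rw [h1, mul_zero]
    | some t =>
      rw [h2] at h1
      simp only [lf, Prod.smul_snd, Prod.smul_fst, smul_eq_mul] at h1 ⊢
      linear_combination (1 / g.det ^ (4 * k)) * h1
  have hwne : ∀ k : ℕ, w k ≠ 0 := by
    intro k
    rw [hwz]
    exact smul_ne_zero (one_div_ne_zero (pow_ne_zero _ hg)) (zs_ne hg hz _)
  have hne : ∃ a, (w a).1 - (w a).2 ≠ 0 := by
    obtain ⟨s, hs⟩ := hSne
    refine ⟨κ s, fun h => hS ?_⟩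
    have h1 := hlf (κ s)
    rw [← hκ s hs] at h1
    have h2 : lf (some (-1)) (w (κ s)) = 0 := by simp only [lf]; linarith
    rw [← slope_unique (hwne _) h1 h2]
    exact hs
  obtain ⟨v, hv⟩ := exists_abv' (g.trace ^ 2 / g.det - 2)
    (by
      intro h
      have h1 := hk 2 (by norm_num)
      apply h1
      have : g.trace ^ 2 / g.det = 2 := by linarith
      rw [div_eq_iff hg] at this
      exact_mod_cast this)
    (by
      intro h
      have h1 := hk 3 (by norm_num)
      apply h1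
      have : g.trace ^ 2 / g.det = 3 := by linarith
      rw [div_eq_iff hg] at this
      exact_mod_cast this)
    (by
      intro h
      have h1 := hk 1 (by norm_num)
      apply h1
      have : g.trace ^ 2 / g.det = 1 := by linarith
      rw [div_eq_iff hg] at this
      exact_mod_cast this)
    (by
      intro h
      have h1 := hk 4 (by norm_num)
      apply h1
      have : g.trace ^ 2 / g.det = 4 := by linarith
      rw [div_eq_iff hg] at this
      exact_mod_cast this)
    (by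
      intro h
      have h1 := hk 0 (by norm_num)
      apply h1
      have : g.trace ^ 2 / g.det = 0 := by linarith
      rw [div_eq_iff hg] at this
      exact_mod_cast this)
  set J : Finset ℤ := S.image (fun s => (κ s : ℤ)) with hJ
  obtain ⟨B, hBJ, hBc, A, n, hn, hA1, hA2, hA3⟩ := core hv hw hne (∑ s ∈ S, κ s) J (by
    intro j hj
    rw [hJ, mem_image] at hj
    obtain ⟨s, hs, rfl⟩ := hj
    have : κ s ≤ ∑ s ∈ S, κ s := single_le_sum (f := κ) (fun _ _ => Nat.zero_le _) hs
    rw [Nat.abs_cast]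
    exact_mod_cast this)
  -- the good part
  have hgood : CL 1 {s | s ∈ S ∧ (κ s : ℤ) ∉ B} := by
    right
    refine ⟨1, le_refl _, A, n, hn, by rw [one_mul]; exact hA1,
      fun s => by rw [one_mul]; exact hA2 s, ?_⟩
    rintro s ⟨hs, hsB⟩
    rw [one_mul]
    refine hA3 (κ s) ?_ hsB s ?_
    · rw [hJ]; exact mem_image_of_mem _ hs
    · have := hlf (κ s)
      rwa [← hκ s hs] at this
  -- the bad part
  have hbad : CL 4 {s | s ∈ S ∧ (κ s : ℤ) ∈ B} := by
    set D : Finset (Option ℚ) := S.filter (fun s => (κ s : ℤ) ∈ B) with hD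
    have h1 : {s | s ∈ S ∧ (κ s : ℤ) ∈ B} = (D : Set (Option ℚ)) := by
      ext s
      simp [hD]
    rw [h1]
    rcases D.eq_empty_or_nonempty with h0 | hne'
    · left; rw [h0]; simp
    · right
      refine ⟨D.card, ?_, Cov.finite D (fun h => hS (mem_filter.mp h).1) hne'⟩
      refine le_trans ?_ hBc
      apply card_le_card_of_injOn (fun s => (κ s : ℤ))
      · intro s hs
        rw [hD] at hs
        exact (mem_filter.mp (mem_coe.mp hs)).2
      · intro s hs t ht hst
        have hs' := (mem_filter.mp (mem_coe.mp (hD ▸ hs))).1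
        have ht' := (mem_filter.mp (mem_coe.mp (hD ▸ ht))).1
        have : κ s = κ t := by
          have h9 : (κ s : ℤ) = κ t := hst
          exact_mod_cast h9
        rw [hκ s hs', hκ t ht', this]
  refine (hgood.union hbad).mono ?_
  intro s hs
  by_cases h : (κ s : ℤ) ∈ B
  · right; exact ⟨hs, h⟩
  · left; exact ⟨hs, h⟩

/-- one orbit -/
theorem orbit_CL {g : Matrix (Fin 2) (Fin 2) ℚ} (hg : g.det ≠ 0)
    (hk : ∀ k : ℕ, k ≤ 4 → g.trace ^ 2 ≠ k * g.det) (r : Option ℚ)
    (S : Finset (Option ℚ)) (hS : some (-1) ∉ S)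
    (hSo : ∀ s ∈ S, ∃ n : ℕ, s = (mob g)^[n] r) : CL 40 (S : Set (Option ℚ)) := by
  have h1 : CL ((range 8).card * 5) (⋃ ρ ∈ range 8,
      ((S.filter (fun s => ∃ k : ℕ, s = (mob g)^[8 * k + ρ] r) : Finset (Option ℚ)) :
        Set (Option ℚ))) := by
    apply CL.iUnion
    intro ρ _
    refine class_CL hg hk r ρ _ (fun h => hS (mem_filter.mp h).1) ?_
    intro s hs
    exact (mem_filter.mp hs).2
  rw [card_range] at h1
  refine h1.mono ?_
  intro s hs
  obtain ⟨n, hn⟩ := hSo s (mem_coe.mp hs)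
  simp only [Set.mem_iUnion, mem_coe, mem_filter, mem_range]
  refine ⟨n % 8, Nat.mod_lt _ (by norm_num), mem_coe.mp hs, n / 8, ?_⟩
  rw [Nat.div_add_mod]
  exact hn

/-- from the parts to the failure of the inequality -/
theorem fails_of_CL (S : Finset ℚ) (q : ℕ) (hq : 1 ≤ q)
    (h : CL q (insert none ((S.image some : Finset (Option ℚ)) : Set (Option ℚ)))) :
    Fails S (1 + 1 / (180 * q)) := by
  rcases h with h | ⟨Q, hQ, A, n, hn, a1, a2, a3⟩
  · exact absurd h (Set.insert_nonempty _ _).ne_empty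
  have hQ0 : 1 ≤ Q := by
    by_contra hcon
    have hQ : Q = 0 := by omega
    rw [hQ, zero_mul, pow_zero] at a1
    have h1 := a3 none (Set.mem_insert _ _)
    rw [hQ, zero_mul, mul_zero, pow_zero] at h1
    have hAne : A.Nonempty := by
      rw [nonempty_iff_ne_empty]
      rintro rfl
      simp [pj] at a1
    have h2 : 1 ≤ (pj none A).card := by
      unfold pj
      exact card_pos.mpr (hAne.image _)
    have h3 : 2 ≤ 2 ^ n := by
      calc 2 = 2 ^ 1 := by norm_num
        _ ≤ 2 ^ n := Nat.pow_le_pow_right (by norm_num) hn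
    have h4 : 1 ≤ (pj none A).card ^ 180 := Nat.one_le_pow _ _ h2
    nlinarith
  have hκ : (1 : ℝ) + 1 / (180 * q) ≤ 1 + 1 / (180 * Q) := by
    have hQr : (1 : ℝ) ≤ Q := by exact_mod_cast hQ0
    have hQq : (Q : ℝ) ≤ q := by exact_mod_cast hQ
    have : (1 : ℝ) / (180 * q) ≤ 1 / (180 * Q) :=
      one_div_le_one_div_of_le (by positivity) (by linarith)
    linarith
  refine fails_of_exists S _ (by positivity) A (exists_mono S _ _ (by positivity) hκ A ?_)
  -- every projection is small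
  have hall : ∀ s ∈ (insert none ((S.image some : Finset (Option ℚ)) : Set (Option ℚ))),
      ((pj s A).card : ℝ) ≤ (2 : ℝ) ^ ((n : ℝ) * (Q - 1 / 180)) := by
    intro s hs
    have h1 := a3 s hs
    have h2 : ((pj s A).card : ℝ) ^ 180 * 2 ^ n ≤ (2 : ℝ) ^ (180 * (Q * n)) := by exact_mod_cast h1
    have h3 : ((pj s A).card : ℝ) ^ 180 ≤ ((2 : ℝ) ^ ((n : ℝ) * (Q - 1 / 180))) ^ 180 := by
      rw [← Real.rpow_natCast ((2 : ℝ) ^ ((n : ℝ) * (Q - 1 / 180))) 180, ← Real.rpow_mul (by norm_num)]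
      have h4 : (2 : ℝ) ^ ((n : ℝ) * (Q - 1 / 180) * ((180 : ℕ) : ℝ)) * 2 ^ n =
          (2 : ℝ) ^ (180 * (Q * n)) := by
        rw [← Real.rpow_natCast 2 n, ← Real.rpow_natCast 2 (180 * (Q * n)),
          ← Real.rpow_add (by norm_num)]
        congr 1
        push_cast
        ring
      have h5 : (0 : ℝ) < 2 ^ n := by positivity
      exact le_of_mul_le_mul_right (h2.trans h4.ge) h5
    exact le_of_pow_le_pow_left₀ (by norm_num) (by positivity) h3
  have hbig : (big S A : ℝ) ≤ (2 : ℝ) ^ ((n : ℝ) * (Q - 1 / 180)) := by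
    unfold big
    rw [Nat.cast_max]
    apply max_le
    · exact hall none (Set.mem_insert _ _)
    · by_cases hSn : S.Nonempty
      · obtain ⟨r, hr', he⟩ := Finset.exists_mem_eq_sup S hSn (fun r => (proj r A).card)
        rw [he]
        exact hall (some r) (Set.mem_insert_of_mem _ (mem_coe.mpr (mem_image_of_mem some hr')))
      · rw [Finset.not_nonempty_iff_eq_empty] at hSn
        subst hSn
        simp
        positivity
  have hnr : (1 : ℝ) ≤ n := by exact_mod_cast hn
  have hQr : (1 : ℝ) ≤ Q := by exact_mod_cast hQ0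
  calc (big S A : ℝ) ^ (1 + 1 / (180 * Q : ℝ)) ≤
        ((2 : ℝ) ^ ((n : ℝ) * (Q - 1 / 180))) ^ (1 + 1 / (180 * Q : ℝ)) :=
        Real.rpow_le_rpow (by positivity) hbig (by positivity)
    _ = (2 : ℝ) ^ ((n : ℝ) * (Q - 1 / 180) * (1 + 1 / (180 * Q))) := by
        rw [← Real.rpow_mul (by norm_num)]
    _ < (2 : ℝ) ^ ((Q : ℝ) * n) := by
        apply Real.rpow_lt_rpow_of_exponent_lt (by norm_num)
        have e : (n : ℝ) * (Q - 1 / 180) * (1 + 1 / (180 * Q)) =
            Q * n - n / (32400 * Q) := by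
          field_simp
          ring
        rw [e]
        have : 0 < (n : ℝ) / (32400 * Q) := by positivity
        linarith
    _ = ((proj (-1) A).card : ℝ) := by
        rw [← pj_some, a1]
        push_cast
        rw [← Real.rpow_natCast]
        push_cast
        rfl

theorem fails_weaken {S : Finset ℚ} {m : ℕ} (hm : 1 ≤ m)
    (h4 : Fails S (1 + 1 / (180 * ((1 + m * 40 : ℕ) : ℝ)))) : Fails S (1 + 1 / (7380 * m)) := by
  -- compare the exponents
  intro M
  obtain ⟨A, hA⟩ := h4 (max M 0)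
  refine ⟨A, lt_of_le_of_lt ?_ hA⟩
  have hmr : (1 : ℝ) ≤ m := by exact_mod_cast hm
  have hle : (1 : ℝ) + 1 / (7380 * m) ≤ 1 + 1 / (180 * ((1 + m * 40 : ℕ) : ℝ)) := by
    have : (1 : ℝ) / (7380 * m) ≤ 1 / (180 * ((1 + m * 40 : ℕ) : ℝ)) := by
      apply one_div_le_one_div_of_le
      · positivity
      · push_cast
        linarith
    linarith
  have hpow : (big S A : ℝ) ^ ((1 : ℝ) + 1 / (7380 * m)) ≤
      (big S A : ℝ) ^ ((1 : ℝ) + 1 / (180 * ((1 + m * 40 : ℕ) : ℝ))) := by
    rcases Nat.eq_zero_or_pos (big S A) with h0 | h0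
    · rw [h0, Nat.cast_zero, Real.zero_rpow (by positivity), Real.zero_rpow (by positivity)]
    · exact Real.rpow_le_rpow_of_exponent_le (by exact_mod_cast h0) hle
  calc M * (big S A : ℝ) ^ ((1 : ℝ) + 1 / (7380 * m)) ≤
        max M 0 * (big S A : ℝ) ^ ((1 : ℝ) + 1 / (7380 * m)) :=
        mul_le_mul_of_nonneg_right (le_max_left _ _) (by positivity)
    _ ≤ _ := mul_le_mul_of_nonneg_left hpow (le_max_right _ _)

/-- unions of orbits of linear fractional maps of infinite order which are not parabolic -/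
theorem orbits_fail (m : ℕ) (hm : 1 ≤ m) (g : Fin m → Matrix (Fin 2) (Fin 2) ℚ)
    (r : Fin m → Option ℚ) (hg : ∀ i, (g i).det ≠ 0)
    (hk : ∀ i, ∀ k : ℕ, k ≤ 4 → (g i).trace ^ 2 ≠ k * (g i).det)
    (S : Finset ℚ) (hS : (-1 : ℚ) ∉ S)
    (hSo : ∀ s ∈ S, ∃ (i : Fin m) (n : ℕ), some s = (mob (g i))^[n] (r i)) :
    Fails S (1 + 1 / (7380 * m)) := by
  have h1 : CL ((univ : Finset (Fin m)).card * 40) (⋃ i ∈ (univ : Finset (Fin m)),
      (((S.image some).filter (fun s => ∃ n : ℕ, s = (mob (g i))^[n] (r i)) :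
        Finset (Option ℚ)) : Set (Option ℚ))) := by
    apply CL.iUnion
    intro i _
    refine orbit_CL (hg i) (hk i) (r i) _ ?_ (fun s hs => (mem_filter.mp hs).2)
    intro h
    have := (mem_filter.mp h).1
    rw [mem_image] at this
    obtain ⟨x, hx, hx'⟩ := this
    rw [Option.some.injEq] at hx'
    rw [hx'] at hx
    exact hS hx
  have h2 : CL 1 ({none} : Set (Option ℚ)) := by
    right; exact ⟨1, le_refl _, Cov.single none (by simp)⟩
  have h3 := h2.union h1
  rw [card_univ, Fintype.card_fin] at h3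
  have h4 := fails_of_CL S (1 + m * 40) (by omega) (h3.mono (by
    intro s hs
    rcases hs with rfl | hs
    · left; rfl
    · right
      rw [mem_coe, mem_image] at hs
      obtain ⟨x, hx, rfl⟩ := hs
      obtain ⟨i, n, hin⟩ := hSo x hx
      simp only [Set.mem_iUnion, mem_coe, mem_filter]
      exact ⟨i, mem_univ _, mem_image_of_mem _ hx, n, hin⟩))
  exact fails_weaken hm h4

end Pool.Agent.H84.AK
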