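import Pool.Agent.H84.AK.Orbit
import Pool.Graph.R_seed8.R470.AK.Part

/-! # Parabolic orbits and maps of finite order (helper file of helper84) -/

set_option autoImplicit false

namespace Pool.Agent.H84.AK

open Finset
open Pool.Agent.H989.Slopes
open scoped Classical

theorem zs_para {g : Matrix (Fin 2) (Fin 2) ℚ} {lam : ℚ} (hl : lam ≠ 0) (h1 : g.trace = 2 * lam)
    (h2 : g.det = lam ^ 2) (z : ℚ × ℚ) (n : ℕ) :
    zs g z n = lam ^ n • (z + (n : ℚ) • ((1 / lam) • zs g z 1 - z)) := by
  have key : ∀ n : ℕ, zs g z n = lam ^ n • (z + (n : ℚ) • ((1 / lam) • zs g z 1 - z)) ∧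
      zs g z (n + 1) = lam ^ (n + 1) • (z + ((n : ℚ) + 1) • ((1 / lam) • zs g z 1 - z)) := by
    intro n
    induction n with
    | zero =>
      constructor
      · simp [zs]
      · simp only [Nat.cast_zero, zero_add, pow_one, one_smul, add_sub_cancel]
        rw [smul_smul, mul_one_div_cancel hl, one_smul]
    | succ n ih =>
      refine ⟨by push_cast; exact ih.2, ?_⟩
      rw [zs_rec, ih.1, ih.2, h1, h2]
      push_cast
      generalize (1 / lam) • zs g z 1 - z = y
      module
  exact (key n).1

theorem prod_mod (y : ℕ) (s : Finset ℕ) : ∃ Q : ℕ, ∏ i ∈ s, (1 + i * y) = 1 + y * Q := by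
  induction s using Finset.induction_on with
  | empty => exact ⟨0, by simp⟩
  | insert a s ha ih =>
    obtain ⟨Q, hQ⟩ := ih
    refine ⟨Q + a + a * y * Q, ?_⟩
    rw [prod_insert ha, hQ]
    ring

/-- fractional linear functions of the index take the values of long progressions -/
theorem exists_prog (α β γ δ : ℚ) (h : α * δ - β * γ ≠ 0) (k : ℕ) :
    ∃ (A B : ℚ) (n : ℕ → ℕ), B ≠ 0 ∧ ∀ j ≤ k, α + β * n j ≠ 0 ∧ γ + δ * n j ≠ 0 ∧
      (α + β * n j) / (γ + δ * n j) = A + B * j := by
  -- the numerator does not vanish for large indices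
  obtain ⟨t, ht⟩ : ∃ t : ℕ, ∀ n : ℕ, t ≤ n → α + β * n ≠ 0 := by
    by_cases hb : β = 0
    · refine ⟨0, fun n _ h0 => h ?_⟩
      rw [hb, zero_mul, add_zero] at h0
      rw [h0, hb]; ring
    · obtain ⟨t, ht⟩ := exists_nat_gt (-α / β)
      refine ⟨t, fun n hn h0 => ?_⟩
      have h1 : (n : ℚ) = -α / β := by
        rw [eq_div_iff hb]; linarith
      have h2 : (t : ℚ) ≤ n := by exact_mod_cast hn
      linarith
  by_cases hd : δ = 0
  · have hg : γ ≠ 0 := by
      intro h0; apply h; rw [h0, hd]; ring
    have hb : β ≠ 0 := by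
      intro h0; apply h; rw [h0, hd]; ring
    refine ⟨(α + β * t) / γ, β / γ, fun j => t + j, div_ne_zero hb hg, fun j _ => ⟨ht _ (show t ≤ t + j by omega),
      by rw [hd]; simpa using hg, ?_⟩⟩
    rw [hd]
    push_cast
    rw [zero_mul, add_zero]
    field_simp
    ring
  · -- γ / δ = x / y
    set x := (γ / δ).num with hx
    set y := (γ / δ).den with hy
    have hy0 : (y : ℚ) ≠ 0 := by exact_mod_cast (γ / δ).den_nz
    have hxy : γ * y = δ * x := by
      have := Rat.mul_den_eq_num (γ / δ)
      rw [← hx, ← hy] at this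
      field_simp at this
      linarith
    obtain ⟨t', ht't, ht'⟩ : ∃ t' : ℕ, t ≤ t' ∧ 0 < x + y * t' := by
      refine ⟨t + x.natAbs + 1, by omega, ?_⟩
      have h1 : (1 : ℤ) ≤ y := by exact_mod_cast Nat.one_le_iff_ne_zero.mpr (γ / δ).den_nz
      push_cast
      have h2 := abs_nonneg x
      have h3 := neg_abs_le x
      nlinarith
    obtain ⟨X, hX⟩ := Int.eq_ofNat_of_zero_le ht'.le
    have hX0 : 0 < X := by omega
    choose Q hQ using prod_mod y
    set n : ℕ → ℕ := fun j => t' + Q ((range (k + 1)).erase j) * X with hn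
    set PP : ℚ := ∏ i ∈ range (k + 1), (1 + (i : ℚ) * y) with hPP
    have hPP0 : PP ≠ 0 := by
      rw [hPP, prod_ne_zero_iff]
      intro i _
      positivity
    have hXq : (X : ℚ) ≠ 0 := by exact_mod_cast hX0.ne'
    have hden : ∀ j ≤ k, (γ + δ * n j) * (y * (1 + (j : ℚ) * y)) = δ * X * PP := by
      intro j hj
      have h1 : PP = (1 + (j : ℚ) * y) * ∏ i ∈ (range (k + 1)).erase j, (1 + (i : ℚ) * y) := by
        rw [hPP, mul_prod_erase _ (fun i : ℕ => 1 + (i : ℚ) * y) (mem_range.mpr (by omega))]
      have h2 : ∏ i ∈ (range (k + 1)).erase j, (1 + (i : ℚ) * y) =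
          1 + y * (Q ((range (k + 1)).erase j) : ℚ) := by
        exact_mod_cast congrArg (Nat.cast (R := ℚ)) (hQ ((range (k + 1)).erase j))
      have h3 : (x : ℚ) + y * t' = X := by exact_mod_cast hX
      rw [h1, h2, hn]
      push_cast
      have h4 : γ * y = δ * X - δ * y * t' := by rw [hxy]; linear_combination δ * h3
      linear_combination (1 + (j : ℚ) * y) * h4
    refine ⟨β / δ + (α * δ - β * γ) * y / (δ ^ 2 * X * PP),
      (α * δ - β * γ) * y * y / (δ ^ 2 * X * PP), n, ?_, ?_⟩
    · exact div_ne_zero (mul_ne_zero (mul_ne_zero h hy0) hy0)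
        (mul_ne_zero (mul_ne_zero (pow_ne_zero _ hd) hXq) hPP0)
    · intro j hj
      have h1 := hden j hj
      have h2 : γ + δ * n j ≠ 0 := by
        intro h0
        rw [h0, zero_mul] at h1
        exact mul_ne_zero (mul_ne_zero hd hXq) hPP0 h1.symm
      refine ⟨ht _ ?_, h2, ?_⟩
      · rw [hn]; simp only; omega
      · have h5 : δ ^ 2 * X * PP = δ * ((γ + δ * n j) * (y * (1 + (j : ℚ) * y))) := by
          rw [h1]; ring
        have h6 : (1 + (j : ℚ) * y) ≠ 0 := by positivity
        rw [h5]
        obtain ⟨W, hW⟩ : ∃ W : ℚ, W = γ + δ * (n j : ℚ) := ⟨_, rfl⟩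
        rw [← hW] at h2 ⊢
        have hγ : γ = W - δ * n j := by rw [hW]; ring
        rw [hγ]
        field_simp
        ring

/-- the reciprocals `1 / (s + 1)` for a parabolic orbit contain long progressions -/
theorem para_rich {g : Matrix (Fin 2) (Fin 2) ℚ} (hg : g.det ≠ 0) (h4 : g.trace ^ 2 = 4 * g.det)
    {r : Option ℚ} (hr : mob g r ≠ r) :
    Pool.Agent.R470.AK.Rich {s : ℚ | ∃ n : ℕ, some s = (mob g)^[n] r} := by
  obtain ⟨z, hz, hrz⟩ := exists_ker r
  set lam := g.trace / 2 with hlam
  have h1 : g.trace = 2 * lam := by rw [hlam]; ring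
  have h2 : g.det = lam ^ 2 := by rw [hlam]; linarith
  have hl : lam ≠ 0 := by
    intro h0
    rw [h0] at h2
    exact hg (by rw [h2]; ring)
  set y := (1 / lam) • zs g z 1 - z with hy
  have hzn := zs_para hl h1 h2 z
  rw [← hy] at hzn
  -- independence
  have hind : z.1 * y.2 - z.2 * y.1 ≠ 0 := by
    intro h0
    apply hr
    have h3 := lf_zs (g := g) hrz 1
    rw [Function.iterate_one] at h3
    have h5 : lf r (zs g z 1) = 0 := by
      have h6 := hzn 1
      rw [pow_one, Nat.cast_one, one_smul] at h6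
      have h7 : lf r y = 0 := by
        have hcase : z.1 ≠ 0 ∨ z.2 ≠ 0 := by
          by_contra h
          push Not at h
          exact hz (Prod.ext h.1 h.2)
        cases r with
        | none =>
          simp only [lf] at hrz ⊢
          rw [hrz] at h0
          rcases hcase with h | h
          · have : z.1 * y.2 = 0 := by linarith
            exact (mul_eq_zero.mp this).resolve_left h
          · exact absurd hrz h
        | some q =>
          simp only [lf] at hrz ⊢
          have hz1 : z.1 = - (q * z.2) := by linarith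
          have hz2 : z.2 ≠ 0 := by
            intro h8
            rw [h8, mul_zero, neg_zero] at hz1
            rcases hcase with h | h
            · exact h hz1
            · exact h h8
          rw [hz1] at h0
          have : z.2 * (y.1 + q * y.2) = 0 := by linear_combination -h0
          exact (mul_eq_zero.mp this).resolve_left hz2
      rw [h6]
      cases r with
      | none =>
        simp only [lf, Prod.smul_snd, Prod.snd_add, smul_eq_mul] at hrz h7 ⊢
        rw [hrz, h7]; ring
      | some q =>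
        simp only [lf, Prod.smul_snd, Prod.snd_add, Prod.smul_fst, Prod.fst_add, smul_eq_mul]
          at hrz h7 ⊢
        linear_combination lam * hrz + lam * h7
    exact slope_unique (zs_ne hg hz 1) h3 h5
  intro k
  obtain ⟨A, B, n, hB, hn⟩ := exists_prog z.2 y.2 (z.2 - z.1) (y.2 - y.1) (by
    intro h0; apply hind; linear_combination h0) k
  refine ⟨A, B, hB, fun j hj => ?_⟩
  obtain ⟨e1, e2, e3⟩ := hn j hj
  have hp : lam ^ (n j) ≠ 0 := pow_ne_zero _ hl
  refine ⟨-(z.1 + n j * y.1) / (z.2 + y.2 * n j), ⟨n j, ?_⟩, ?_, ?_⟩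
  · refine slope_unique (zs_ne hg hz (n j)) ?_ (lf_zs hrz (n j))
    rw [hzn]
    simp only [lf, Prod.smul_snd, Prod.snd_add, Prod.smul_fst, Prod.fst_add, smul_eq_mul]
    have e1' : z.2 + n j * y.2 ≠ 0 := by rwa [mul_comm (n j : ℚ)]
    rw [show z.2 + y.2 * (n j : ℚ) = z.2 + n j * y.2 by ring]
    field_simp
    ring
  · intro h0
    apply e2
    have h5 : -(z.1 + n j * y.1) + (z.2 + y.2 * n j) = 0 := by
      have := congrArg (fun q => q * (z.2 + y.2 * n j)) h0
      simp only [add_mul, div_mul_cancel₀ _ e1, one_mul, zero_mul] at this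
      exact this
    linear_combination h5
  · unfold Pool.Agent.R470.AK.tm
    rw [← e3]
    have h5 : -(z.1 + n j * y.1) / (z.2 + y.2 * n j) + 1 =
        (z.2 - z.1 + (y.2 - y.1) * n j) / (z.2 + y.2 * n j) := by
      rw [eq_div_iff e1, add_mul, div_mul_cancel₀ _ e1]
      ring
    rw [h5]
    simp only [one_div, inv_div]

/-- maps with `tr² = k det`, `k ≤ 3`, have finite order -/
theorem finite_order {g : Matrix (Fin 2) (Fin 2) ℚ} (hg : g.det ≠ 0)
    {k : ℕ} (hk : k ≤ 3) (h : g.trace ^ 2 = k * g.det) (r : Option ℚ) :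
    (mob g)^[12] r = r := by
  obtain ⟨z, hz, hrz⟩ := exists_ker r
  have hrec := zs_rec g z
  -- the twelfth vector is a multiple of the first
  have h12 : ∃ c : ℚ, zs g z 12 = c • z := by
    have r0 := hrec 0
    have r1 := hrec 1
    have r2 := hrec 2
    have r3 := hrec 3
    have r4 := hrec 4
    have r5 := hrec 5
    have r6 := hrec 6
    have r7 := hrec 7
    have r8 := hrec 8
    have r9 := hrec 9
    have r10 := hrec 10
    norm_num at r0 r1 r2 r3 r4 r5 r6 r7 r8 r9 r10
    have hz0 : zs g z 0 = z := rfl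
    rw [hz0] at r0
    generalize zs g z 1 = a at *
    rw [r0] at r1
    rw [r0, r1] at r2
    rw [r1, r2] at r3
    rw [r2, r3] at r4
    rw [r3, r4] at r5
    rw [r4, r5] at r6
    rw [r5, r6] at r7
    rw [r6, r7] at r8
    rw [r7, r8] at r9
    rw [r8, r9] at r10
    rw [r10]
    generalize g.trace = τ at *
    generalize g.det = Δ at *
    have hk' : k = 0 ∨ k = 1 ∨ k = 2 ∨ k = 3 := by omega
    refine ⟨?_, ?_⟩
    · exact if k = 0 then Δ ^ 6 else if k = 1 then Δ ^ 6 else if k = 2 then -Δ ^ 6 else Δ ^ 6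
    · rcases hk' with rfl | rfl | rfl | rfl
      · simp only [if_true]
        have hτ : τ = 0 := by
          have : τ ^ 2 = 0 := by rw [h]; simp
          exact pow_eq_zero_iff (by norm_num) |>.mp this
        rw [hτ]
        module
      · norm_num at h ⊢
        rw [← h]
        module
      · norm_num at h ⊢
        have hΔ : Δ = τ ^ 2 / 2 := by linarith
        rw [hΔ]
        module
      · norm_num at h ⊢
        have hΔ : Δ = τ ^ 2 / 3 := by linarith
        rw [hΔ]
        module
  obtain ⟨c, hc⟩ := h12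
  have h1 := lf_zs (g := g) hrz 12
  refine slope_unique (zs_ne hg hz 12) h1 ?_
  rw [hc]
  cases r with
  | none =>
    simp only [lf, Prod.smul_snd, smul_eq_mul] at hrz ⊢
    rw [hrz, mul_zero]
  | some q =>
    simp only [lf, Prod.smul_snd, Prod.smul_fst, smul_eq_mul] at hrz ⊢
    linear_combination c * hrz

/-- orbits of maps of finite order are finite -/
theorem orbit_finite {g : Matrix (Fin 2) (Fin 2) ℚ} {r : Option ℚ} {p : ℕ} (hp : 0 < p)
    (h : (mob g)^[p] r = r) : (Set.range fun n : ℕ => (mob g)^[n] r).Finite := by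
  refine ((Finset.range p).image (fun n => (mob g)^[n] r)).finite_toSet.subset ?_
  rintro _ ⟨n, rfl⟩
  rw [mem_coe, mem_image]
  refine ⟨n % p, mem_range.mpr (Nat.mod_lt _ hp), ?_⟩
  have h1 : ∀ q : ℕ, (mob g)^[p * q] r = r := by
    intro q
    rw [Function.iterate_mul]
    induction q with
    | zero => rfl
    | succ q ih => rw [Function.iterate_succ_apply, h]; exact ih
  have h2 := Function.iterate_add_apply (mob g) (n % p) (p * (n / p)) r
  rw [Nat.mod_add_div, h1] at h2
  exact h2.symm

end Pool.Agent.H84.AK
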