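import Pool.Agent.H84.AK.Para

/-! # Finite unions of orbits of slopes (helper file of helper84) -/

set_option autoImplicit false

namespace Pool.Agent.H84.AK

open Finset
open Pool.Agent.H989.Slopes
open scoped Classical

/-- the forward orbit of the slope `r` -/
def orb (g : Matrix (Fin 2) (Fin 2) ℚ) (r : Option ℚ) : Set (Option ℚ) :=
  Set.range fun n : ℕ => (mob g)^[n] r

/-- the inequality of the conjecture with the exponent `κ` holds for `S` and `∞` -/
def Holds (S : Finset ℚ) (κ : ℝ) : Prop :=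
  ∀ A : Finset (ℤ × ℤ), ((proj (-1) A).card : ℝ) ≤ (big S A : ℝ) ^ κ

theorem holds_iff (S : Finset ℚ) (κ : ℝ) : Holds S κ ↔ Pool.Agent.R470.AK.Bound S κ := Iff.rfl

theorem CL.weaken {q q' : ℕ} {T : Set (Option ℚ)} (h : CL q T) (hq : q ≤ q') : CL q' T := by
  rcases h with rfl | ⟨Q, hQ, c⟩
  · left; rfl
  · right; exact ⟨Q, hQ.trans hq, c⟩

theorem CL.ofFinite {g : Matrix (Fin 2) (Fin 2) ℚ} {r : Option ℚ} {p : ℕ} (hp : 0 < p)
    (h : (mob g)^[p] r = r) (S : Finset (Option ℚ)) (hS : some (-1) ∉ S)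
    (hSO : ∀ s ∈ S, s ∈ orb g r) : CL p (S : Set (Option ℚ)) := by
  rcases S.eq_empty_or_nonempty with rfl | hne
  · left; simp
  · right
    refine ⟨S.card, ?_, Cov.finite S hS hne⟩
    have h1 : S ⊆ (range p).image (fun n => (mob g)^[n] r) := by
      intro s hs
      obtain ⟨n, rfl⟩ := hSO s hs
      rw [mem_image]
      refine ⟨n % p, mem_range.mpr (Nat.mod_lt _ hp), ?_⟩
      have h1 : ∀ q : ℕ, (mob g)^[p * q] r = r := by
        intro q
        rw [Function.iterate_mul]
        induction q with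
        | zero => rfl
        | succ q ih => rw [Function.iterate_succ_apply, h]; exact ih
      have h2 := Function.iterate_add_apply (mob g) (n % p) (p * (n / p)) r
      rw [Nat.mod_add_div, h1] at h2
      exact h2.symm
    exact (card_le_card h1).trans (card_image_le.trans (by rw [card_range]))

theorem orb_finite_of_fix {g : Matrix (Fin 2) (Fin 2) ℚ} {r : Option ℚ} (h : mob g r = r) :
    (orb g r).Finite := orbit_finite (p := 1) one_pos (by simpa using h)

theorem rich_infinite {R : Set ℚ} (hR : Pool.Agent.R470.AK.Rich R) : R.Infinite := by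
  intro hfin
  obtain ⟨a, b, hb, hab⟩ := hR hfin.toFinset.card
  choose! f hfR hf1 hf2 using hab
  have h1 : (range (hfin.toFinset.card + 1)).card ≤ hfin.toFinset.card := by
    refine card_le_card_of_injOn f (fun j hj => ?_) (fun i hi j hj hij => ?_)
    · rw [mem_coe, mem_range] at hj
      rw [mem_coe, Set.Finite.mem_toFinset]
      exact hfR j (by omega)
    · rw [mem_coe, mem_range] at hi hj
      have h2 := hf2 i (by omega)
      have h3 := hf2 j (by omega)
      have h4 : b * (i : ℚ) = b * j := by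
        have : a + b * (i : ℚ) = a + b * j := by
          rw [← h2, ← h3, show f i = f j from hij]
        linarith
      exact_mod_cast mul_left_cancel₀ hb h4
  rw [card_range] at h1
  omega

theorem para_infinite {g : Matrix (Fin 2) (Fin 2) ℚ} (hg : g.det ≠ 0)
    (h4 : g.trace ^ 2 = 4 * g.det) {r : Option ℚ} (hr : mob g r ≠ r) : (orb g r).Infinite := by
  have h1 := (rich_infinite (para_rich hg h4 hr)).image
    (f := (some : ℚ → Option ℚ)) (Option.some_injective ℚ).injOn
  refine h1.mono ?_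
  rintro _ ⟨s, ⟨n, hn⟩, rfl⟩
  exact ⟨n, hn.symm⟩

/-- all orbits except the infinite orbits of parabolic maps -/
theorem orb_CL {g : Matrix (Fin 2) (Fin 2) ℚ} (hg : g.det ≠ 0) (r : Option ℚ)
    (h : ¬ (g.trace ^ 2 = 4 * g.det ∧ (orb g r).Infinite))
    (S : Finset (Option ℚ)) (hS : some (-1) ∉ S) (hSo : ∀ s ∈ S, s ∈ orb g r) :
    CL 40 (S : Set (Option ℚ)) := by
  by_cases hk : ∀ k : ℕ, k ≤ 4 → g.trace ^ 2 ≠ k * g.det
  · refine orbit_CL hg hk r S hS (fun s hs => ?_)
    obtain ⟨n, hn⟩ := hSo s hs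
    exact ⟨n, hn.symm⟩
  · push Not at hk
    obtain ⟨k, hk4, hk⟩ := hk
    by_cases h4 : k = 4
    · subst h4
      have h1 : g.trace ^ 2 = 4 * g.det := by exact_mod_cast hk
      -- the orbit is infinite unless the slope is fixed
      have h2 : mob g r = r := by
        by_contra h5
        exact h ⟨h1, para_infinite hg h1 h5⟩
      exact (CL.ofFinite (p := 1) one_pos (by simpa using h2) S hS hSo).weaken (by norm_num)
    · exact (CL.ofFinite (p := 12) (by norm_num)
        (finite_order hg (show k ≤ 3 by omega) hk r) S hS hSo).weaken (by norm_num)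

/-- finite unions of orbits without infinite orbits of parabolic maps -/
theorem union_fails (m : ℕ) (hm : 1 ≤ m) (g : Fin m → Matrix (Fin 2) (Fin 2) ℚ)
    (r : Fin m → Option ℚ) (hg : ∀ i, (g i).det ≠ 0)
    (h : ∀ i, ¬ ((g i).trace ^ 2 = 4 * (g i).det ∧ (orb (g i) (r i)).Infinite))
    (S : Finset ℚ) (hS : (-1 : ℚ) ∉ S) (hSo : ∀ s ∈ S, ∃ i, some s ∈ orb (g i) (r i)) :
    Fails S (1 + 1 / (7380 * m)) := by
  have h1 : CL ((univ : Finset (Fin m)).card * 40) (⋃ i ∈ (univ : Finset (Fin m)),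
      (((S.image some).filter (fun s => s ∈ orb (g i) (r i)) :
        Finset (Option ℚ)) : Set (Option ℚ))) := by
    apply CL.iUnion
    intro i _
    refine orb_CL (hg i) (r i) (h i) _ ?_ (fun s hs => (mem_filter.mp hs).2)
    intro h
    have := (mem_filter.mp h).1
    rw [mem_image] at this
    obtain ⟨x, hx, hx'⟩ := this
    rw [Option.some.injEq] at hx'
    rw [hx'] at hx
    exact hS hx
  have h2 : CL 1 ({none} : Set (Option ℚ)) := by
    right; exact ⟨1, le_refl _, Cov.single none (by simp)⟩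
  have h3 := h2.union h1
  rw [card_univ, Fintype.card_fin] at h3
  have h4 := fails_of_CL S (1 + m * 40) (by omega) (h3.mono (by
    intro s hs
    rcases hs with rfl | hs
    · left; rfl
    · right
      rw [mem_coe, mem_image] at hs
      obtain ⟨x, hx, rfl⟩ := hs
      obtain ⟨i, hi⟩ := hSo x hx
      simp only [Set.mem_iUnion, mem_coe, mem_filter]
      exact ⟨i, mem_univ _, mem_image_of_mem _ hx, hi⟩))
  exact fails_weaken hm h4

/-- infinite orbits of parabolic maps are as good as all slopes -/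
theorem para_holds {g : Matrix (Fin 2) (Fin 2) ℚ} (hg : g.det ≠ 0)
    (h4 : g.trace ^ 2 = 4 * g.det) {r : Option ℚ} (hr : (orb g r).Infinite) {κ : ℝ} (hκ : 0 ≤ κ)
    {S₀ : Finset ℚ} (h0 : (-1 : ℚ) ∉ S₀) (h : Holds S₀ κ) :
    ∃ S : Finset ℚ, (∀ s ∈ S, some s ∈ orb g r) ∧ (-1 : ℚ) ∉ S ∧ Holds S κ := by
  have hr' : mob g r ≠ r := fun h1 => hr (orb_finite_of_fix h1)
  obtain ⟨S, h1, h2, h3⟩ := Pool.Agent.R470.AK.rich_bound (para_rich hg h4 hr') hκ h0
    ((holds_iff _ _).mp h)
  refine ⟨S, fun s hs => ?_, h2, (holds_iff _ _).mpr h3⟩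
  obtain ⟨n, hn⟩ := h1 hs
  exact ⟨n, hn.symm⟩

end Pool.Agent.H84.AK
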